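import Mathlib

/-!
# Lattice path flag matroids, Bruhat interval polytopes, subdivisions of the permutahedron

The definitions used by the statement about MP_da1dad_co. Positions and values `1, …, n` are
modelled by `Fin n`; a permutation `w` of `{1, …, n}` is an `Equiv.Perm (Fin n)`, whose one-line
notation has the entry `w i + 1` in position `i + 1`.
-/

namespace Pool.Agent.H146.DA

open Finset Pointwise

variable {n : ℕ}

/-! ## Permutations, Bruhat order, the permutahedron -/

/-- One step upwards in the (strong) Bruhat order of `𝔖ₙ` in one-line notation: exchange the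
entries in two positions `a < b` holding `u a < u b`; this increases the number of inversions. -/
def BruhatStep (u v : Equiv.Perm (Fin n)) : Prop :=
  ∃ a b : Fin n, a < b ∧ u a < u b ∧ v = u * Equiv.swap a b

/-- The (strong) Bruhat order on `𝔖ₙ`: the reflexive transitive closure of `BruhatStep`. -/
def BruhatLE (u v : Equiv.Perm (Fin n)) : Prop := Relation.ReflTransGen BruhatStep u v

/-- The point `(w₁, …, wₙ) ∈ ℝⁿ` of a permutation `w` of `{1, …, n}`. -/
def pt (w : Equiv.Perm (Fin n)) : Fin n → ℝ := fun i => ((w i).val : ℝ) + 1

/-- The permutahedron `Πₙ`: the convex hull of all points of permutations. -/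
def permutahedron (n : ℕ) : Set (Fin n → ℝ) :=
  convexHull ℝ (Set.range (pt : Equiv.Perm (Fin n) → Fin n → ℝ))

/-- `P` is a Bruhat interval polytope `P_{[u,v]}`, `u ≤ v`: the convex hull of the points of the
permutations `w` with `u ≤ w ≤ v` in the Bruhat order. -/
def IsBIP (P : Set (Fin n → ℝ)) : Prop :=
  ∃ u v : Equiv.Perm (Fin n), BruhatLE u v ∧
    P = convexHull ℝ (pt '' {w | BruhatLE u w ∧ BruhatLE w v})

/-- The dimension of a polytope: the dimension of the direction of its affine span. -/
noncomputable def polyDim (P : Set (Fin n → ℝ)) : ℕ := Module.finrank ℝ (vectorSpan ℝ P)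

/-- `C` is (the set of maximal cells of) a subdivision of the permutahedron `Πₙ` into Bruhat
interval polytopes: a finite set of `(n-1)`-dimensional Bruhat interval polytopes with union `Πₙ`,
any two of which meet in a common face (possibly empty). -/
structure IsBIPSubdivision (n : ℕ) (C : Set (Set (Fin n → ℝ))) : Prop where
  /-- finitely many cells -/
  finite : C.Finite
  /-- each cell is a Bruhat interval polytope -/
  isBIP : ∀ P ∈ C, IsBIP P
  /-- each cell has dimension `n - 1` -/
  dim : ∀ P ∈ C, polyDim P = n - 1
  /-- the union of the cells is the permutahedron -/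
  union : ⋃₀ C = permutahedron n
  /-- any two cells meet in a common face, possibly empty -/
  face : ∀ P ∈ C, ∀ Q ∈ C, IsExposed ℝ P (P ∩ Q) ∧ IsExposed ℝ Q (P ∩ Q)

/-! ## Lattice path matroids and flag matroids -/

/-- A lattice path of length `n` is encoded by the set `P ⊆ [n]` of its north steps; this is its
height after the first `i` steps. -/
def pathHeight (P : Finset (Fin n)) (i : ℕ) : ℕ := (P.filter (fun x => x.val < i)).card

/-- `M` is the lattice path matroid `M[U, L]` of rank `k` on `[n]`: `U` and `L` are lattice paths
from `(0,0)` to `(n-k,k)`, `U` is never below `L`, and the bases are exactly the lattice paths from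
`(0,0)` to `(n-k,k)` lying weakly between `L` and `U`. -/
structure IsLPM (k : ℕ) (U L : Finset (Fin n)) (M : Matroid (Fin n)) : Prop where
  /-- the ground set is `[n]` -/
  ground : M.E = Set.univ
  /-- `U` has `k` north steps -/
  cardU : U.card = k
  /-- `L` has `k` north steps -/
  cardL : L.card = k
  /-- `U` is never below `L` -/
  above : ∀ i, pathHeight L i ≤ pathHeight U i
  /-- the bases are the paths between `L` and `U` -/
  isBase : ∀ B : Finset (Fin n), M.IsBase ↑B ↔
    B.card = k ∧ ∀ i, pathHeight L i ≤ pathHeight B i ∧ pathHeight B i ≤ pathHeight U i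

/-- `M` is a quotient of `N`, `M ≤_q N`: every circuit of `N` is a union of circuits of `M`. -/
def IsQuotient {α : Type*} (M N : Matroid α) : Prop :=
  ∀ C, N.IsCircuit C → ∃ D : Set (Set α), (∀ X ∈ D, M.IsCircuit X) ∧ C = ⋃₀ D

/-- `M 1 ≤_q M 2 ≤_q ⋯ ≤_q M n` is a lattice path flag matroid on `[n]`: a full flag matroid all of
whose constituents are lattice path matroids, `M k` having rank `k`. (The values of `M` at other
indices play no role.) -/
structure IsLPFM (M : ℕ → Matroid (Fin n)) : Prop where
  /-- `M k` is a lattice path matroid of rank `k` -/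
  lpm : ∀ k, 1 ≤ k → k ≤ n → ∃ U L, IsLPM k U L (M k)
  /-- consecutive constituents are quotients -/
  quot : ∀ k, 1 ≤ k → k < n → IsQuotient (M k) (M (k + 1))

/-- The indicator vector of `B ⊆ [n]`. -/
def ind (B : Finset (Fin n)) : Fin n → ℝ := fun i => if i ∈ B then 1 else 0

/-- The base polytope of a matroid on `[n]`. -/
def basePolytope (M : Matroid (Fin n)) : Set (Fin n → ℝ) :=
  convexHull ℝ {x | ∃ B : Finset (Fin n), M.IsBase ↑B ∧ x = ind B}

/-- The flag matroid polytope: the Minkowski sum of the base polytopes of `M 1, …, M n`. -/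
def flagPolytope (M : ℕ → Matroid (Fin n)) : Set (Fin n → ℝ) :=
  ∑ k ∈ Icc 1 n, basePolytope (M k)

end Pool.Agent.H146.DA
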