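import Mathlib

/-!
# Tropical positive three-term incidence relations and exchange
-/

namespace Pool.Agent.H146.DA

open Finset

variable {n : ℕ}

/-- The positive tropical three term incidence relations. -/
def T1 (w : Finset (Fin n) → ℝ) : Prop :=
  ∀ (S : Finset (Fin n)) (a b c : Fin n), a < b → b < c → a ∉ S → b ∉ S → c ∉ S →
    w (insert b S) + w (insert a (insert c S)) =
      min (w (insert a S) + w (insert b (insert c S)))
        (w (insert c S) + w (insert a (insert b S)))

/-- Local exchange, sizes `k, k+1`. -/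
def L3 (w : Finset (Fin n) → ℝ) : Prop :=
  ∀ (S : Finset (Fin n)) (x y z : Fin n), x ≠ y → x ≠ z → y ≠ z → x ∉ S → y ∉ S → z ∉ S →
      min (w (insert y S) + w (insert x (insert z S)))
        (w (insert z S) + w (insert x (insert y S))) ≤ w (insert x S) + w (insert y (insert z S))

/-- Local exchange, equal sizes. -/
def L4 (w : Finset (Fin n) → ℝ) : Prop :=
  ∀ (S : Finset (Fin n)) (x x' y y' : Fin n), x ≠ x' → y ≠ y' → x ≠ y → x ≠ y' → x' ≠ y → x' ≠ y' →
     x ∉ S → x' ∉ S → y ∉ S → y' ∉ S →
      min (w (insert x (insert y S)) + w (insert x' (insert y' S)))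
        (w (insert x (insert y' S)) + w (insert x' (insert y S))) ≤
        w (insert x (insert x' S)) + w (insert y (insert y' S))

theorem T1.l3 {w : Finset (Fin n) → ℝ} (h : T1 w) : L3 w := by
  intro S x y z hxy hxz hyz hx hy hz
  rcases lt_or_gt_of_ne hxy with h1 | h1 <;> rcases lt_or_gt_of_ne hxz with h2 | h2 <;>
    rcases lt_or_gt_of_ne hyz with h3 | h3
  · -- x<y<z
    have := h S x y z h1 h3 hx hy hz
    have h4 := min_le_left (w (insert x S) + w (insert y (insert z S)))
        (w (insert z S) + w (insert x (insert y S)))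
    rw [← this] at h4
    exact (min_le_left _ _).trans h4
  · -- x<z<y
    have := h S x z y h2 h3 hx hz hy
    have h4 := min_le_left (w (insert x S) + w (insert z (insert y S)))
        (w (insert y S) + w (insert x (insert z S)))
    rw [← this, Finset.insert_comm z y] at h4
    exact (min_le_right _ _).trans h4
  · exact absurd (h1.trans h3) (not_lt.2 h2.le)
  · -- z<x<y
    have := h S z x y h2 h1 hz hx hy
    rw [Finset.insert_comm z y] at this
    rw [this, Finset.insert_comm x z, Finset.insert_comm x y, Finset.insert_comm z x, min_comm]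
  · -- y<x<z
    have := h S y x z h1 h2 hy hx hz
    rw [this, Finset.insert_comm y x]
  · exact absurd (h3.trans h1) (not_lt.2 h2.le)
  · -- y<z<x
    have := h S y z x h3 h2 hy hz hx
    have h4 := min_le_right (w (insert y S) + w (insert z (insert x S)))
        (w (insert x S) + w (insert y (insert z S)))
    rw [← this, Finset.insert_comm y x] at h4
    exact (min_le_right _ _).trans h4
  · -- z<y<x
    have := h S z y x h3 h1 hz hy hx
    have h4 := min_le_right (w (insert z S) + w (insert y (insert x S)))
        (w (insert x S) + w (insert z (insert y S)))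
    rw [← this, Finset.insert_comm z x, Finset.insert_comm z y] at h4
    exact (min_le_left _ _).trans h4

/-- The positive tropical three term Plücker relations. -/
theorem T1.t2 {w : Finset (Fin n) → ℝ} (h : T1 w) (S : Finset (Fin n)) (a b c d : Fin n)
    (hab : a < b) (hbc : b < c) (hcd : c < d) (ha : a ∉ S) (hb : b ∉ S) (hc : c ∉ S) (hd : d ∉ S) :
    w (insert a (insert c S)) + w (insert b (insert d S)) =
      min (w (insert a (insert b S)) + w (insert c (insert d S)))
        (w (insert a (insert d S)) + w (insert b (insert c S))) := by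
  have h1 := h S a b c hab hbc ha hb hc
  have h2 := h S b c d hbc hcd hb hc hd
  have h3 := h S a b d hab (hbc.trans hcd) ha hb hd
  generalize w (insert a (insert c S)) = ac at *
  generalize w (insert b (insert d S)) = bd at *
  generalize w (insert a (insert b S)) = ab at *
  generalize w (insert c (insert d S)) = cd at *
  generalize w (insert a (insert d S)) = ad at *
  generalize w (insert b (insert c S)) = bc at *
  generalize w (insert a S) = pa at *
  generalize w (insert b S) = pb at *
  generalize w (insert c S) = pc at *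
  generalize w (insert d S) = pd at *
  clear h
  rcases le_total (pa + bc) (pc + ab) with e1 | e1 <;>
  rcases le_total (pb + cd) (pd + bc) with e2 | e2 <;>
  rcases le_total (pa + bd) (pd + ab) with e3 | e3 <;>
  rcases le_total (ab + cd) (ad + bc) with e4 | e4 <;>
  (first | rw [min_eq_left e1] at h1 | rw [min_eq_right e1] at h1) <;>
  (first | rw [min_eq_left e2] at h2 | rw [min_eq_right e2] at h2) <;>
  (first | rw [min_eq_left e3] at h3 | rw [min_eq_right e3] at h3) <;>
  (first | rw [min_eq_left e4] | rw [min_eq_right e4]) <;> linarith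

theorem T1.l4 {w : Finset (Fin n) → ℝ} (h : T1 w) : L4 w := by
  -- sorted version
  have key : ∀ (S : Finset (Fin n)) (x x' y y' : Fin n), x < x' → y < y' → x < y → x' ≠ y →
      x' ≠ y' → x ∉ S → x' ∉ S → y ∉ S → y' ∉ S →
      min (w (insert x (insert y S)) + w (insert x' (insert y' S)))
        (w (insert x (insert y' S)) + w (insert x' (insert y S))) ≤
        w (insert x (insert x' S)) + w (insert y (insert y' S)) := by
    intro S x x' y y' h1 h2 h3 h4 h5 hx hx' hy hy'
    rcases lt_or_gt_of_ne h4 with g1 | g1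
    · -- x<x'<y<y'
      have := h.t2 S x x' y y' h1 g1 h2 hx hx' hy hy'
      have h6 := min_le_left (w (insert x (insert x' S)) + w (insert y (insert y' S)))
        (w (insert x (insert y' S)) + w (insert x' (insert y S)))
      rw [← this] at h6
      exact (min_le_left _ _).trans h6
    · rcases lt_or_gt_of_ne h5 with g2 | g2
      · -- x<y<x'<y'
        have := h.t2 S x y x' y' h3 g1 g2 hx hy hx' hy'
        rw [this, Finset.insert_comm y x']
      · -- x<y<y'<x'
        have := h.t2 S x y y' x' h3 h2 g2 hx hy hy' hx'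
        have h6 := min_le_right (w (insert x (insert y S)) + w (insert y' (insert x' S)))
          (w (insert x (insert x' S)) + w (insert y (insert y' S)))
        rw [← this, Finset.insert_comm y x'] at h6
        exact (min_le_right _ _).trans h6
  have key2 : ∀ (S : Finset (Fin n)) (x x' y y' : Fin n), x < x' → y < y' → x ≠ y → x ≠ y' →
      x' ≠ y →
      x' ≠ y' → x ∉ S → x' ∉ S → y ∉ S → y' ∉ S →
      min (w (insert x (insert y S)) + w (insert x' (insert y' S)))
        (w (insert x (insert y' S)) + w (insert x' (insert y S))) ≤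
        w (insert x (insert x' S)) + w (insert y (insert y' S)) := by
    intro S x x' y y' h1 h2 h3 h3' h4 h5 hx hx' hy hy'
    rcases lt_or_gt_of_ne h3 with g1 | g1
    · exact key S x x' y y' h1 h2 g1 h4 h5 hx hx' hy hy'
    · have := key S y y' x x' h2 h1 g1 h3'.symm h5.symm hy hy' hx hx'
      rw [Finset.insert_comm y x, Finset.insert_comm y' x', Finset.insert_comm y x', Finset.insert_comm y' x] at this
      rw [add_comm (w (insert x' (insert y S))), add_comm (w (insert y (insert y' S)))] at this
      exact this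
  intro S x x' y y' hxx hyy h1 h2 h3 h4 hx hx' hy hy'
  rcases lt_or_gt_of_ne hxx with g1 | g1 <;> rcases lt_or_gt_of_ne hyy with g2 | g2
  · exact key2 S x x' y y' g1 g2 h1 h2 h3 h4 hx hx' hy hy'
  · have := key2 S x x' y' y g1 g2 h2 h1 h4 h3 hx hx' hy' hy
    rw [Finset.insert_comm y' y] at this
    rw [min_comm]; exact this
  · have := key2 S x' x y y' g1 g2 h3 h4 h1 h2 hx' hx hy hy'
    rw [Finset.insert_comm x' x] at this
    rw [add_comm (w (insert x (insert y S))), add_comm (w (insert x (insert y' S))), min_comm]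
    exact this
  · have := key2 S x' x y' y g1 g2 h4 h3 h2 h1 hx' hx hy' hy
    rw [Finset.insert_comm x' x, Finset.insert_comm y' y] at this
    rw [add_comm (w (insert x (insert y S))), add_comm (w (insert x (insert y' S)))]
    exact this

/-- Adding a modular function. -/
def shift (w : Finset (Fin n) → ℝ) (p : Fin n → ℝ) : Finset (Fin n) → ℝ :=
  fun X => w X + ∑ j ∈ X, p j

theorem T1.shift {w : Finset (Fin n) → ℝ} (h : T1 w) (p : Fin n → ℝ) : T1 (shift w p) := by
  intro S a b c hab hbc ha hb hc
  have hac : a < c := hab.trans hbc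
  have h1 := h S a b c hab hbc ha hb hc
  have e1 : ∑ j ∈ insert a (insert c S), p j = p a + (p c + ∑ j ∈ S, p j) := by
    rw [sum_insert (by simp [hac.ne, ha]), sum_insert hc]
  have e2 : ∑ j ∈ insert b (insert c S), p j = p b + (p c + ∑ j ∈ S, p j) := by
    rw [sum_insert (by simp [hbc.ne, hb]), sum_insert hc]
  have e3 : ∑ j ∈ insert a (insert b S), p j = p a + (p b + ∑ j ∈ S, p j) := by
    rw [sum_insert (by simp [hab.ne, ha]), sum_insert hb]
  simp only [DA.shift, e1, e2, e3, sum_insert ha, sum_insert hb, sum_insert hc]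
  rcases le_total (w (insert a S) + w (insert b (insert c S)))
    (w (insert c S) + w (insert a (insert b S))) with g | g
  · rw [min_eq_left g] at h1
    rw [min_eq_left (by linarith)]; linarith
  · rw [min_eq_right g] at h1
    rw [min_eq_right (by linarith)]; linarith

theorem T1.smul {w : Finset (Fin n) → ℝ} (h : T1 w) {t : ℝ} (ht : 0 ≤ t) :
    T1 (fun X => t * w X) := by
  intro S a b c hab hbc ha hb hc
  have h1 := h S a b c hab hbc ha hb hc
  simp only [← mul_add, h1, mul_min_of_nonneg _ _ ht]

theorem L3.shift {w : Finset (Fin n) → ℝ} (h : L3 w) (p : Fin n → ℝ) : L3 (shift w p) := by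
  intro S x y z hxy hxz hyz hx hy hz
  have h1 := h S x y z hxy hxz hyz hx hy hz
  have e1 : ∑ j ∈ insert x (insert z S), p j = p x + (p z + ∑ j ∈ S, p j) := by
    rw [sum_insert (by simp [hxz, hx]), sum_insert hz]
  have e2 : ∑ j ∈ insert x (insert y S), p j = p x + (p y + ∑ j ∈ S, p j) := by
    rw [sum_insert (by simp [hxy, hx]), sum_insert hy]
  have e3 : ∑ j ∈ insert y (insert z S), p j = p y + (p z + ∑ j ∈ S, p j) := by
    rw [sum_insert (by simp [hyz, hy]), sum_insert hz]
  simp only [DA.shift, e1, e2, e3, sum_insert hx, sum_insert hy, sum_insert hz]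
  rcases min_le_iff.1 h1 with g | g
  · exact (min_le_left _ _).trans (by linarith)
  · exact (min_le_right _ _).trans (by linarith)

theorem L4.shift {w : Finset (Fin n) → ℝ} (h : L4 w) (p : Fin n → ℝ) : L4 (shift w p) := by
  intro S x x' y y' hxx hyy h1 h2 h3 h4 hx hx' hy hy'
  have h0 := h S x x' y y' hxx hyy h1 h2 h3 h4 hx hx' hy hy'
  have e : ∀ u v : Fin n, u ≠ v → u ∉ S → v ∉ S →
      ∑ j ∈ insert u (insert v S), p j = p u + (p v + ∑ j ∈ S, p j) := by
    intro u v huv hu hv
    rw [sum_insert (by simp [huv, hu]), sum_insert hv]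
  simp only [DA.shift, e x x' hxx hx hx', e y y' hyy hy hy', e x y h1 hx hy, e x y' h2 hx hy',
    e x' y h3 hx' hy, e x' y' h4 hx' hy']
  rcases min_le_iff.1 h0 with g | g
  · exact (min_le_left _ _).trans (by linarith)
  · exact (min_le_right _ _).trans (by linarith)

/-- Exchange for pairs of consecutive sizes, adding to the smaller set. -/
theorem exch_up : ∀ (m : ℕ) (w : Finset (Fin n) → ℝ), L3 w → ∀ I J : Finset (Fin n),
    (I \ J).card = m → J.card = I.card + 1 →
    ∃ y ∈ J \ I, w (insert y I) + w (J.erase y) ≤ w I + w J := by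
  intro m
  induction m with
  | zero =>
    intro w h3 I J hm hc
    have hsub : I ⊆ J := by
      rw [card_eq_zero, sdiff_eq_empty_iff_subset] at hm; exact hm
    have h1 : (J \ I).card = 1 := by rw [card_sdiff_of_subset hsub]; omega
    obtain ⟨y, hy⟩ := card_eq_one.1 h1
    have hyJI : y ∈ J \ I := by rw [hy]; simp
    refine ⟨y, hyJI, ?_⟩
    have h2 : J = insert y I := by
      ext t
      by_cases ht : t ∈ I
      · simp [ht, hsub ht]
      · have : t ∈ J ↔ t ∈ J \ I := by simp [ht]
        rw [this, hy]; simp [ht]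
    have hyI : y ∉ I := (mem_sdiff.1 hyJI).2
    rw [h2, erase_insert hyI]
    linarith
  | succ m ih =>
    intro w h3 I J hm hc
    by_contra hcon
    push Not at hcon
    set p : Fin n → ℝ := fun j => if j ∈ J \ I then w I - w (insert j I) else 0 with hp
    set f := DA.shift w p with hf
    have hpI : ∑ j ∈ I, p j = 0 := by
      apply sum_eq_zero; intro j hj; simp [hp, hj]
    have hfI : ∀ y ∈ J \ I, f (insert y I) = f I := by
      intro y hy
      have hyI : y ∉ I := (mem_sdiff.1 hy).2
      simp only [hf, DA.shift, sum_insert hyI, hpI]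
      simp only [hp, if_pos hy]; ring
    have hfJ : ∀ y ∈ J \ I, f J < f (J.erase y) := by
      intro y hy
      have hyI : y ∉ I := (mem_sdiff.1 hy).2
      have hyJ : y ∈ J := (mem_sdiff.1 hy).1
      have h1 := hcon y hy
      have h2 : ∑ j ∈ J, p j = p y + ∑ j ∈ J.erase y, p j := (add_sum_erase J p hyJ).symm
      simp only [hf, DA.shift, h2]
      simp only [hp, if_pos hy] at *
      linarith
    have hne : (I \ J).Nonempty := by rw [← card_pos, hm]; omega
    obtain ⟨i0, hi0⟩ := hne
    have hi0I : i0 ∈ I := (mem_sdiff.1 hi0).1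
    have hi0J : i0 ∉ J := (mem_sdiff.1 hi0).2
    have hne2 : (J \ I).Nonempty := by
      rw [← card_pos]
      have := card_sdiff_add_card_inter J I
      have h4 := card_sdiff_add_card_inter I J
      rw [inter_comm] at h4
      omega
    obtain ⟨j0, hj0, hmin⟩ := exists_min_image (J \ I) (fun j => f (insert i0 (J.erase j))) hne2
    have hj0J : j0 ∈ J := (mem_sdiff.1 hj0).1
    have hj0I : j0 ∉ I := (mem_sdiff.1 hj0).2
    set J' := insert i0 (J.erase j0) with hJ'
    have hJ'c : J'.card = I.card + 1 := by
      rw [hJ', card_insert_of_notMem (by simp [hi0J]), card_erase_of_mem hj0J]; omega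
    have hIJ' : (I \ J').card = m := by
      have : I \ J' = (I \ J).erase i0 := by
        ext t; simp only [hJ', mem_sdiff, mem_insert, mem_erase]
        constructor
        · rintro ⟨h1, h2⟩
          push Not at h2
          refine ⟨h2.1, h1, fun h => ?_⟩
          exact h2.2 (fun h5 => hj0I (h5 ▸ h1)) h
        · rintro ⟨h1, h2, h3⟩
          exact ⟨h2, by push Not; exact ⟨h1, fun _ => h3⟩⟩
      rw [this, card_erase_of_mem hi0, hm]; rfl
    obtain ⟨y, hy, hle⟩ := ih f (h3.shift p) I J' hIJ' hJ'c
    rw [mem_sdiff] at hy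
    have hyJ0 : y ∈ J ∧ y ≠ j0 := by
      have := hy.1
      rw [hJ', mem_insert, mem_erase] at this
      rcases this with h | h
      · exact absurd (h ▸ hi0I) hy.2
      · exact ⟨h.2, h.1⟩
    have hyJI : y ∈ J \ I := mem_sdiff.2 ⟨hyJ0.1, hy.2⟩
    rw [hfI y hyJI] at hle
    have hle2 : f (J'.erase y) ≤ f J' := by linarith
    -- local exchange
    set S := (J.erase j0).erase y with hS
    have hSy : insert y S = J.erase j0 := insert_erase (by simp [hyJ0])
    have hSj : insert j0 S = J.erase y := by
      rw [hS, erase_right_comm, insert_erase (by simp [hyJ0.2.symm, hj0J])]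
    have hSyj : insert j0 (insert y S) = J := by rw [hSy, insert_erase hj0J]
    have hi0y : i0 ≠ y := fun h => hy.2 (h ▸ hi0I)
    have hi0j : i0 ≠ j0 := fun h => hj0I (h ▸ hi0I)
    have hSi : insert i0 S = J'.erase y := by
      rw [hJ', ← hSy, Finset.insert_comm, erase_insert]
      simp [hi0y.symm, hS]
    have hL := (h3.shift p) S i0 j0 y hi0j hi0y hyJ0.2.symm (by simp [hS, hi0J])
      (by simp [hS]) (by simp [hS])
    rw [hSyj, hSi, hSy, hSj] at hL
    have g1 := hfJ y hyJI
    have g2 := hfJ j0 hj0
    have g3 := hmin y hyJI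
    rcases min_le_iff.1 hL with g | g
    · change f (J.erase y) + f (insert i0 (J.erase j0)) ≤ f (J'.erase y) + f J at g
      rw [← hJ'] at g
      linarith
    · change f (J.erase j0) + f (insert i0 (J.erase y)) ≤ f (J'.erase y) + f J at g
      change f (insert i0 (J.erase j0)) ≤ f (insert i0 (J.erase y)) at g3
      rw [← hJ'] at g3
      linarith

/-- Exchange of a given element of the smaller set. -/
theorem exch : ∀ (m : ℕ) (w : Finset (Fin n) → ℝ), L3 w → L4 w → ∀ (I J : Finset (Fin n))
    (x : Fin n), (I \ J).card = m + 1 → (J.card = I.card ∨ J.card = I.card + 1) →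
    x ∈ I \ J →
    ∃ y ∈ J \ I, w (insert y (I.erase x)) + w (insert x (J.erase y)) ≤ w I + w J := by
  intro m
  induction m with
  | zero =>
    intro w h3 h4 I J x hm hc hx
    rw [zero_add] at hm
    obtain ⟨x', hx'⟩ := card_eq_one.1 hm
    have hxx : x = x' := by rw [hx'] at hx; simpa using hx
    subst hxx
    have hxI : x ∈ I := (mem_sdiff.1 hx).1
    have hxJ : x ∉ J := (mem_sdiff.1 hx).2
    have hsub : I.erase x ⊆ J := by
      intro t ht
      by_contra hcon
      have : t ∈ I \ J := mem_sdiff.2 ⟨(mem_erase.1 ht).2, hcon⟩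
      rw [hx'] at this
      exact (mem_erase.1 ht).1 (by simpa using this)
    have hcI : (I.erase x).card + 1 = I.card := card_erase_add_one hxI
    set S := I.erase x with hS
    have hxS : x ∉ S := by simp [hS]
    have hIS : insert x S = I := insert_erase hxI
    have hJI : J \ I = J \ S := by
      ext t; rw [← hIS]; simp only [mem_sdiff, mem_insert]
      constructor
      · rintro ⟨h1, h2⟩; exact ⟨h1, fun h => h2 (Or.inr h)⟩
      · rintro ⟨h1, h2⟩; exact ⟨h1, fun h => h.elim (fun h => hxJ (h ▸ h1)) h2⟩
    have hJSc : (J \ S).card = J.card - S.card := card_sdiff_of_subset hsub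
    rcases hc with hc | hc
    · have h1 : (J \ S).card = 1 := by omega
      obtain ⟨y, hy⟩ := card_eq_one.1 h1
      have hyJS : y ∈ J \ S := by rw [hy]; simp
      refine ⟨y, hJI ▸ hyJS, ?_⟩
      have hyS : y ∉ S := (mem_sdiff.1 hyJS).2
      have h2 : insert y S = J := by
        rw [← sdiff_union_of_subset hsub, hy]; rfl
      have h5 : J.erase y = S := by rw [← h2, erase_insert hyS]
      rw [h2, h5, hIS]; linarith
    · have h1 : (J \ S).card = 2 := by omega
      obtain ⟨y, z, hyz, hyz2⟩ := card_eq_two.1 h1
      have hyJS : y ∈ J \ S := by rw [hyz2]; simp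
      have hzJS : z ∈ J \ S := by rw [hyz2]; simp
      have hyS : y ∉ S := (mem_sdiff.1 hyJS).2
      have hzS : z ∉ S := (mem_sdiff.1 hzJS).2
      have hyJ : y ∈ J := (mem_sdiff.1 hyJS).1
      have hzJ : z ∈ J := (mem_sdiff.1 hzJS).1
      have h2 : insert y (insert z S) = J := by
        rw [← sdiff_union_of_subset hsub, hyz2]
        ext t; simp only [mem_insert, mem_union, mem_singleton]; tauto
      have hxy : x ≠ y := fun h => hxJ (h ▸ hyJ)
      have hxz : x ≠ z := fun h => hxJ (h ▸ hzJ)
      have hL := h3 S x y z hxy hxz hyz hxS hyS hzS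
      have h5 : J.erase y = insert z S := by
        rw [← h2, erase_insert (by simp [hyz, hyS])]
      have h6 : J.erase z = insert y S := by
        rw [← h2, Finset.insert_comm, erase_insert (by simp [hyz.symm, hzS])]
      rcases min_le_iff.1 hL with g | g
      · refine ⟨y, hJI ▸ hyJS, ?_⟩
        rw [h5]; rw [h2, hIS] at g; exact g
      · refine ⟨z, hJI ▸ hzJS, ?_⟩
        rw [h6]; rw [h2, hIS] at g; exact g
  | succ m ih =>
    intro w h3 h4 I J x hm hc hx
    by_contra hcon
    push Not at hcon
    have hxI : x ∈ I := (mem_sdiff.1 hx).1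
    have hxJ : x ∉ J := (mem_sdiff.1 hx).2
    set p : Fin n → ℝ := fun j => if j ∈ J \ I then w I - w (insert j (I.erase x)) else 0 with hp
    set f := DA.shift w p with hf
    have hpI : ∀ X ⊆ I, ∑ j ∈ X, p j = 0 := by
      intro X hX
      apply sum_eq_zero; intro j hj; simp [hp, hX hj]
    have hfI : ∀ y ∈ J \ I, f (insert y (I.erase x)) = f I := by
      intro y hy
      have hyI : y ∉ I.erase x := fun h => (mem_sdiff.1 hy).2 (mem_of_mem_erase h)
      simp only [hf, DA.shift, sum_insert hyI, hpI _ (erase_subset _ _), hpI I subset_rfl]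
      simp only [hp, if_pos hy]; ring
    have hfJ : ∀ y ∈ J \ I, f J < f (insert x (J.erase y)) := by
      intro y hy
      have hyI : y ∉ I := (mem_sdiff.1 hy).2
      have hyJ : y ∈ J := (mem_sdiff.1 hy).1
      have h1 := hcon y hy
      have h2 : ∑ j ∈ J, p j = p y + ∑ j ∈ J.erase y, p j := (add_sum_erase J p hyJ).symm
      have h5 : ∑ j ∈ insert x (J.erase y), p j = ∑ j ∈ J.erase y, p j := by
        rw [sum_insert (by simp [hxJ])]
        have : p x = 0 := by simp [hp, hxJ]
        rw [this, zero_add]
      simp only [hf, DA.shift, h2, h5]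
      simp only [hp, if_pos hy] at *
      linarith
    have hne : ((I \ J).erase x).Nonempty := by
      rw [← card_pos, card_erase_of_mem hx, hm]; omega
    obtain ⟨i0, hi0⟩ := hne
    have hi0x : i0 ≠ x := (mem_erase.1 hi0).1
    have hi0' : i0 ∈ I \ J := (mem_erase.1 hi0).2
    have hi0I : i0 ∈ I := (mem_sdiff.1 hi0').1
    have hi0J : i0 ∉ J := (mem_sdiff.1 hi0').2
    have hne2 : (J \ I).Nonempty := by
      rw [← card_pos]
      have := card_sdiff_add_card_inter J I
      have h4 := card_sdiff_add_card_inter I J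
      rw [inter_comm] at h4
      omega
    obtain ⟨j0, hj0, hmin⟩ := exists_min_image (J \ I) (fun j => f (insert i0 (J.erase j))) hne2
    have hj0J : j0 ∈ J := (mem_sdiff.1 hj0).1
    have hj0I : j0 ∉ I := (mem_sdiff.1 hj0).2
    set J' := insert i0 (J.erase j0) with hJ'
    have hJ'c : J'.card = J.card := by
      rw [hJ', card_insert_of_notMem (by simp [hi0J]), card_erase_of_mem hj0J]
      have : 0 < J.card := card_pos.2 ⟨_, hj0J⟩
      omega
    have hIJ' : (I \ J').card = m + 1 := by
      have : I \ J' = (I \ J).erase i0 := by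
        ext t; simp only [hJ', mem_sdiff, mem_insert, mem_erase]
        constructor
        · rintro ⟨h1, h2⟩
          push Not at h2
          refine ⟨h2.1, h1, fun h => ?_⟩
          exact h2.2 (fun h5 => hj0I (h5 ▸ h1)) h
        · rintro ⟨h1, h2, h3⟩
          exact ⟨h2, by push Not; exact ⟨h1, fun _ => h3⟩⟩
      rw [this, card_erase_of_mem hi0', hm]; rfl
    have hxJ' : x ∉ J' := by
      rw [hJ', mem_insert, mem_erase]; push Not
      exact ⟨hi0x.symm, fun _ => hxJ⟩
    obtain ⟨y, hy, hle⟩ := ih f (h3.shift p) (h4.shift p) I J' x hIJ' (hJ'c ▸ hc)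
      (mem_sdiff.2 ⟨hxI, hxJ'⟩)
    rw [mem_sdiff] at hy
    have hyJ0 : y ∈ J ∧ y ≠ j0 := by
      have := hy.1
      rw [hJ', mem_insert, mem_erase] at this
      rcases this with h | h
      · exact absurd (h ▸ hi0I) hy.2
      · exact ⟨h.2, h.1⟩
    have hyJI : y ∈ J \ I := mem_sdiff.2 ⟨hyJ0.1, hy.2⟩
    rw [hfI y hyJI] at hle
    have hle2 : f (insert x (J'.erase y)) ≤ f J' := by linarith
    -- local exchange
    set S := (J.erase j0).erase y with hS
    have hSy : insert y S = J.erase j0 := insert_erase (by simp [hyJ0])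
    have hSj : insert j0 S = J.erase y := by
      rw [hS, erase_right_comm, insert_erase (by simp [hyJ0.2.symm, hj0J])]
    have hSyj : insert j0 (insert y S) = J := by rw [hSy, insert_erase hj0J]
    have hi0y : i0 ≠ y := fun h => hy.2 (h ▸ hi0I)
    have hi0j : i0 ≠ j0 := fun h => hj0I (h ▸ hi0I)
    have hxy : x ≠ y := fun h => hy.2 (h ▸ hxI)
    have hxj : x ≠ j0 := fun h => hj0I (h ▸ hxI)
    have hSi : insert i0 S = J'.erase y := by
      rw [hJ', ← hSy, Finset.insert_comm, erase_insert]
      simp [hi0y.symm, hS]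
    have hL := (h4.shift p) S i0 x j0 y hi0x hyJ0.2.symm hi0j hi0y hxj hxy
      (by simp [hS, hi0J]) (by simp [hS, hxJ]) (by simp [hS]) (by simp [hS])
    rw [hSyj, Finset.insert_comm i0 x, hSi, hSy, hSj] at hL
    have g1 := hfJ y hyJI
    have g2 := hfJ j0 hj0
    have g3 := hmin y hyJI
    rcases min_le_iff.1 hL with g | g
    · change f (insert i0 (J.erase y)) + f (insert x (J.erase j0)) ≤
        f (insert x (J'.erase y)) + f J at g
      change f (insert i0 (J.erase j0)) ≤ f (insert i0 (J.erase y)) at g3
      rw [← hJ'] at g3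
      linarith
    · change f (insert i0 (J.erase j0)) + f (insert x (J.erase y)) ≤
        f (insert x (J'.erase y)) + f J at g
      rw [← hJ'] at g
      linarith

end Pool.Agent.H146.DA
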