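import Mathlib

/-!
# Regular subdivisions of a finite point configuration
-/

namespace Pool.Agent.H146.DA

open Finset

section

variable {ι E : Type*} [Fintype ι] [NormedAddCommGroup E] [NormedSpace ℝ E]

theorem mem_conv_weights {p : ι → E} {Q : Set ι} {x : E} (hx : x ∈ convexHull ℝ (p '' Q)) :
    ∃ c : ι → ℝ, (∀ i, 0 ≤ c i) ∧ (∀ i, i ∉ Q → c i = 0) ∧ ∑ i, c i = 1 ∧
      ∑ i, c i • p i = x := by
  classical
  revert x
  change convexHull ℝ (p '' Q) ⊆ {x | ∃ c : ι → ℝ, (∀ i, 0 ≤ c i) ∧ (∀ i, i ∉ Q → c i = 0) ∧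
    ∑ i, c i = 1 ∧ ∑ i, c i • p i = x}
  apply convexHull_min
  · rintro _ ⟨i, hi, rfl⟩
    refine ⟨fun j => if j = i then 1 else 0, ?_, ?_, ?_, ?_⟩
    · intro j; dsimp only; split_ifs <;> norm_num
    · intro j hj; dsimp only; rw [if_neg]; exact fun h => hj (h ▸ hi)
    · simp
    · simp
  · rintro x ⟨c, hc1, hc2, hc3, hc4⟩ y ⟨d, hd1, hd2, hd3, hd4⟩ a b ha hb hab
    refine ⟨fun i => a * c i + b * d i, ?_, ?_, ?_, ?_⟩
    · intro i; have := hc1 i; have := hd1 i; positivity
    · intro i hi; simp only [hc2 i hi, hd2 i hi]; ring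
    · rw [sum_add_distrib, ← mul_sum, ← mul_sum, hc3, hd3]; linarith
    · simp only [add_smul, sum_add_distrib, mul_smul, ← smul_sum, hc4, hd4]

theorem weights_mem_conv {p : ι → E} {Q : Set ι} {c : ι → ℝ} (h0 : ∀ i, 0 ≤ c i)
    (hQ : ∀ i, i ∉ Q → c i = 0) (h1 : ∑ i, c i = 1) :
    ∑ i, c i • p i ∈ convexHull ℝ (p '' Q) := by
  classical
  have e1 : ∑ i, c i • p i = ∑ i ∈ univ.filter (fun i => i ∈ Q), c i • p i := by
    rw [sum_filter]
    apply sum_congr rfl
    intro i _
    by_cases hi : i ∈ Q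
    · rw [if_pos hi]
    · rw [if_neg hi, hQ i hi, zero_smul]
  have e2 : ∑ i ∈ univ.filter (fun i => i ∈ Q), c i = 1 := by
    rw [← h1, sum_filter]
    apply sum_congr rfl
    intro i _
    by_cases hi : i ∈ Q
    · rw [if_pos hi]
    · rw [if_neg hi, hQ i hi]
  rw [e1]
  apply (convex_convexHull ℝ (p '' Q)).sum_mem (fun i _ => h0 i) e2
  intro i hi
  rw [mem_filter] at hi
  exact subset_convexHull ℝ _ ⟨i, hi.2, rfl⟩

/-- The argmin set of `H - l ∘ p`. -/
def Qs (p : ι → E) (H : ι → ℝ) (l : E →L[ℝ] ℝ) : Set ι :=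
  {i | ∀ j, H i - l (p i) ≤ H j - l (p j)}

/-- The cell of the regular subdivision dual to `l`. -/
def Cell (p : ι → E) (H : ι → ℝ) (l : E →L[ℝ] ℝ) : Set E := convexHull ℝ (p '' Qs p H l)

variable [Nonempty ι]

/-- minimal value -/
noncomputable def minv (p : ι → E) (H : ι → ℝ) (l : E →L[ℝ] ℝ) : ℝ :=
  univ.inf' univ_nonempty (fun i => H i - l (p i))

variable {p : ι → E} {H : ι → ℝ} {l : E →L[ℝ] ℝ}

theorem minv_le (j : ι) : minv p H l ≤ H j - l (p j) := inf'_le _ (mem_univ j)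

theorem le_minv {a : ℝ} (h : ∀ j, a ≤ H j - l (p j)) : a ≤ minv p H l :=
  le_inf' _ _ fun j _ => h j

theorem mem_Qs_iff {i : ι} : i ∈ Qs p H l ↔ H i - l (p i) = minv p H l := by
  constructor
  · intro h; exact le_antisymm (le_minv h) (minv_le i)
  · intro h j; rw [h]; exact minv_le j

theorem Qs_nonempty : (Qs p H l).Nonempty := by
  obtain ⟨i, _, hi⟩ := exists_mem_eq_inf' (univ_nonempty (α := ι)) (fun i => H i - l (p i))
  exact ⟨i, mem_Qs_iff.2 hi.symm⟩

theorem cell_val {l' : E →L[ℝ] ℝ} {x : E} (hx : x ∈ Cell p H l) :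
    (l' - l) x ≤ minv p H l - minv p H l' ∧
      ((l' - l) x = minv p H l - minv p H l' → x ∈ Cell p H l') := by
  obtain ⟨c, hc0, hcQ, hc1, rfl⟩ := mem_conv_weights hx
  have e1 : (l' - l) (∑ i, c i • p i) = ∑ i, c i * (l' (p i) - l (p i)) := by
    rw [map_sum]
    apply sum_congr rfl
    intro i _
    rw [map_smul]; rfl
  have e2 : minv p H l - minv p H l' = ∑ i, c i * (minv p H l - minv p H l') := by
    rw [← sum_mul, hc1, one_mul]
  have hle : ∀ i ∈ (univ : Finset ι), c i * (l' (p i) - l (p i)) ≤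
      c i * (minv p H l - minv p H l') := by
    intro i _
    by_cases hi : i ∈ Qs p H l
    · apply mul_le_mul_of_nonneg_left _ (hc0 i)
      have h1 := mem_Qs_iff.1 hi
      have h2 := minv_le (p := p) (H := H) (l := l') i
      linarith
    · rw [hcQ i hi]; simp
  rw [e1]
  constructor
  · rw [e2]; exact sum_le_sum hle
  · intro heq
    rw [e2] at heq
    have h3 := (sum_eq_sum_iff_of_le hle).1 heq
    apply weights_mem_conv hc0 _ hc1
    intro i hi
    by_cases hiQ : i ∈ Qs p H l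
    · have h4 := h3 i (mem_univ i)
      by_contra hci
      have h5 := mul_left_cancel₀ hci h4
      apply hi
      rw [mem_Qs_iff]
      have h1 := mem_Qs_iff.1 hiQ
      linarith
    · exact hcQ i hiQ

theorem cell_inter_exposed (l' : E →L[ℝ] ℝ) :
    IsExposed ℝ (Cell p H l) (Cell p H l ∩ Cell p H l') := by
  rintro ⟨z, hz1, hz2⟩
  have hval : ∀ x, x ∈ Cell p H l → x ∈ Cell p H l' →
      (l' - l) x = minv p H l - minv p H l' := by
    intro x h1 h2
    have g1 := (cell_val (l' := l') h1).1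
    have g2 := (cell_val (l' := l) h2).1
    have g3 : (l - l') x = - (l' - l) x := by simp
    linarith
  refine ⟨l' - l, ?_⟩
  ext x
  constructor
  · rintro ⟨h1, h2⟩
    refine ⟨h1, fun y hy => ?_⟩
    rw [hval x h1 h2]
    exact (cell_val hy).1
  · rintro ⟨h1, h2⟩
    refine ⟨h1, (cell_val h1).2 ?_⟩
    have g1 := h2 z hz1
    rw [hval z hz1 hz2] at g1
    exact le_antisymm (cell_val h1).1 g1

/-- Full-dimensionality of a cell. -/
def Full (p : ι → E) (H : ι → ℝ) (l : E →L[ℝ] ℝ) : Prop :=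
  vectorSpan ℝ (p '' Qs p H l) = vectorSpan ℝ (Set.range p)

/-- Dual objective. -/
noncomputable def Phi (p : ι → E) (H : ι → ℝ) (x : E) (l : E →L[ℝ] ℝ) : ℝ := minv p H l + l x

variable [FiniteDimensional ℝ E]

theorem step_up {x : E} (hx : x ∈ convexHull ℝ (Set.range p)) (hl : ¬ Full p H l) :
    ∃ l' : E →L[ℝ] ℝ, Phi p H x l ≤ Phi p H x l' ∧ (Qs p H l) ⊂ (Qs p H l') := by
  classical
  -- a direction orthogonal to the cell, not constant on the configuration
  have hsub : vectorSpan ℝ (p '' Qs p H l) ≤ vectorSpan ℝ (Set.range p) :=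
    vectorSpan_mono ℝ (Set.image_subset_range _ _)
  obtain ⟨d, hd1, hd2⟩ : ∃ d ∈ vectorSpan ℝ (Set.range p), d ∉ vectorSpan ℝ (p '' Qs p H l) := by
    by_contra hcon
    push Not at hcon
    exact hl (le_antisymm hsub hcon)
  obtain ⟨μ0, hμd, hμ0⟩ := Submodule.exists_le_ker_of_notMem hd2
  obtain ⟨i0, hi0⟩ := Qs_nonempty (p := p) (H := H) (l := l)
  have hconst0 : ∀ i ∈ Qs p H l, μ0 (p i) = μ0 (p i0) := by
    intro i hi
    have h1 : p i -ᵥ p i0 ∈ vectorSpan ℝ (p '' Qs p H l) :=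
      vsub_mem_vectorSpan ℝ ⟨i, hi, rfl⟩ ⟨i0, hi0, rfl⟩
    have h2 := hμ0 h1
    rw [LinearMap.mem_ker, vsub_eq_sub, map_sub] at h2
    linarith
  have hnc0 : ∃ j, μ0 (p j) ≠ μ0 (p i0) := by
    by_contra hcon
    push Not at hcon
    apply hμd
    have : vectorSpan ℝ (Set.range p) ≤ LinearMap.ker μ0 := by
      rw [vectorSpan_def, Submodule.span_le]
      rintro _ ⟨_, ⟨i, rfl⟩, _, ⟨j, rfl⟩, rfl⟩
      simp [hcon i, hcon j]
    exact this hd1
  -- choose the sign
  obtain ⟨μ, hconst, hμx, hex⟩ : ∃ μ : E →ₗ[ℝ] ℝ, (∀ i ∈ Qs p H l, μ (p i) = μ (p i0)) ∧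
      μ (p i0) ≤ μ x ∧ ∃ j, μ (p i0) < μ (p j) := by
    have hmax : ∀ ν : E →ₗ[ℝ] ℝ, ∃ j, ν x ≤ ν (p j) := by
      intro ν
      by_contra hcon
      push Not at hcon
      rw [← Set.image_univ] at hx
      obtain ⟨c, hc0, _, hc1, hcx⟩ := mem_conv_weights hx
      have h1 : ν x = ∑ i, c i * ν (p i) := by
        rw [← hcx, map_sum]; apply sum_congr rfl; intro i _; rw [map_smul]; rfl
      have h2 : ν x = ∑ i, c i * ν x := by rw [← sum_mul, hc1, one_mul]
      have h3 : ∑ i, c i * ν (p i) < ∑ i, c i * ν x := by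
        apply sum_lt_sum
        · intro i _; exact mul_le_mul_of_nonneg_left (hcon i).le (hc0 i)
        · by_contra hcon2
          push Not at hcon2
          have : ∀ i ∈ (univ : Finset ι), c i = 0 := by
            intro i hi
            rcases (hc0 i).lt_or_eq with h | h
            · exfalso
              have := hcon2 i hi
              have h5 := mul_lt_mul_of_pos_left (hcon i) h
              linarith
            · exact h.symm
          rw [sum_eq_zero this] at hc1
          exact zero_ne_one hc1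
      linarith
    rcases lt_trichotomy (μ0 (p i0)) (μ0 x) with h | h | h
    · obtain ⟨j, hj⟩ := hmax μ0
      exact ⟨μ0, hconst0, h.le, j, lt_of_lt_of_le h hj⟩
    · obtain ⟨j, hj⟩ := hnc0
      rcases lt_or_gt_of_ne hj with h2 | h2
      · refine ⟨-μ0, ?_, ?_, j, ?_⟩
        · intro i hi; simp [hconst0 i hi]
        · simp [h]
        · simp [h2]
      · exact ⟨μ0, hconst0, h.le, j, h2⟩
    · obtain ⟨j, hj⟩ := hmax (-μ0)
      refine ⟨-μ0, ?_, ?_, j, ?_⟩
      · intro i hi; simp [hconst0 i hi]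
      · simp [h.le]
      · simp only [LinearMap.neg_apply] at hj ⊢; linarith
  set c := μ (p i0) with hc
  set m := minv p H l with hm
  set sl : ι → ℝ := fun j => H j - l (p j) - m with hsl
  have hsl0 : ∀ j, 0 ≤ sl j := fun j => by
    have := minv_le (p := p) (H := H) (l := l) j
    simp only [hsl]; linarith
  -- the first time a new point enters
  obtain ⟨j0, hj0, hmin⟩ := exists_min_image (univ.filter (fun j => c < μ (p j)))
    (fun j => sl j / (μ (p j) - c)) (by obtain ⟨j, hj⟩ := hex; exact ⟨j, by simp [hj]⟩)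
  simp only [mem_filter, mem_univ, true_and] at hj0 hmin
  set t := sl j0 / (μ (p j0) - c) with ht
  have ht0 : 0 ≤ t := div_nonneg (hsl0 j0) (by linarith)
  set μc : E →L[ℝ] ℝ := LinearMap.toContinuousLinearMap μ with hμc
  have hμc' : ∀ y, μc y = μ y := fun y => rfl
  set l' : E →L[ℝ] ℝ := l + t • μc with hl'
  have hl'v : ∀ y, l' y = l y + t * μ y := by
    intro y; simp [hl', hμc']
  have hge : ∀ j, m - t * c ≤ H j - l' (p j) := by
    intro j
    rw [hl'v]
    by_cases hj : c < μ (p j)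
    · have h1 := hmin j hj
      have h2 : 0 < μ (p j) - c := by linarith
      have h3 : t * (μ (p j) - c) ≤ sl j := by
        rwa [le_div_iff₀ h2] at h1
      simp only [hsl] at h3
      linarith
    · have h1 : 0 ≤ t * (c - μ (p j)) := mul_nonneg ht0 (by linarith)
      have h2 := hsl0 j
      simp only [hsl] at h2
      linarith
  have heqQ : ∀ i ∈ Qs p H l, H i - l' (p i) = m - t * c := by
    intro i hi
    rw [hl'v, hconst i hi]
    have := mem_Qs_iff.1 hi
    rw [← hm] at this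
    linarith
  have hmv : minv p H l' = m - t * c := by
    apply le_antisymm
    · rw [← heqQ i0 hi0]; exact minv_le i0
    · exact le_minv hge
  refine ⟨l', ?_, ?_⟩
  · unfold Phi
    rw [hmv, hl'v, ← hm]
    have : 0 ≤ t * (μ x - c) := mul_nonneg ht0 (by linarith)
    linarith
  · rw [Set.ssubset_iff_of_subset]
    · refine ⟨j0, ?_, ?_⟩
      · rw [mem_Qs_iff, hmv, hl'v]
        have h2 : μ (p j0) - c ≠ 0 := by linarith
        have h3 : t * (μ (p j0) - c) = sl j0 := by rw [ht]; field_simp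
        simp only [hsl] at h3
        linarith
      · intro h
        have := hconst j0 h
        linarith
    · intro i hi
      rw [mem_Qs_iff, hmv]
      exact heqQ i hi

theorem exists_full {x : E} (hx : x ∈ convexHull ℝ (Set.range p)) (l : E →L[ℝ] ℝ) :
    ∃ l' : E →L[ℝ] ℝ, Phi p H x l ≤ Phi p H x l' ∧ Full p H l' := by
  classical
  suffices Hs : ∀ d, ∀ l : E →L[ℝ] ℝ, Fintype.card ι ≤ (Qs p H l).ncard + d →
      ∃ l' : E →L[ℝ] ℝ, Phi p H x l ≤ Phi p H x l' ∧ Full p H l' from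
    Hs (Fintype.card ι) l (Nat.le_add_left _ _)
  intro d
  induction d with
  | zero =>
    intro l hl
    refine ⟨l, le_rfl, ?_⟩
    by_contra hf
    obtain ⟨l', _, h2⟩ := step_up hx hf
    have h3 := Set.ncard_lt_ncard h2 (Set.toFinite _)
    have h4 : (Qs p H l').ncard ≤ Fintype.card ι := by
      rw [← Nat.card_eq_fintype_card, ← Set.ncard_univ]
      exact Set.ncard_le_ncard (Set.subset_univ _) (Set.toFinite _)
    omega
  | succ d ih =>
    intro l hl
    by_cases hf : Full p H l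
    · exact ⟨l, le_rfl, hf⟩
    · obtain ⟨l', h1, h2⟩ := step_up hx hf
      have h3 := Set.ncard_lt_ncard h2 (Set.toFinite _)
      obtain ⟨l'', h4, h5⟩ := ih l' (by omega)
      exact ⟨l'', h1.trans h4, h5⟩

theorem Phi_eq_of_Qs_eq {x : E} (hx : x ∈ convexHull ℝ (Set.range p)) {l l' : E →L[ℝ] ℝ}
    (hf : Full p H l) (hQ : Qs p H l = Qs p H l') : Phi p H x l = Phi p H x l' := by
  obtain ⟨i0, hi0⟩ := Qs_nonempty (p := p) (H := H) (l := l)
  have h1 : ∀ i ∈ Qs p H l, (l - l') (p i) = minv p H l' - minv p H l := by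
    intro i hi
    have g1 := mem_Qs_iff.1 hi
    have g2 := mem_Qs_iff.1 (hQ ▸ hi)
    rw [sub_apply]; linarith
  have h2 : vectorSpan ℝ (p '' Qs p H l) ≤ LinearMap.ker ((l - l' : E →L[ℝ] ℝ) : E →ₗ[ℝ] ℝ) := by
    rw [vectorSpan_def, Submodule.span_le]
    rintro _ ⟨_, ⟨i, hi, rfl⟩, _, ⟨j, hj, rfl⟩, rfl⟩
    rw [SetLike.mem_coe, LinearMap.mem_ker]
    have g1 := h1 i hi
    have g2 := h1 j hj
    change (l - l') (p i - p j) = 0
    rw [map_sub, g1, g2, sub_self]
  have h3 : x -ᵥ p i0 ∈ vectorSpan ℝ (Set.range p) := by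
    have hx' : x ∈ affineSpan ℝ (Set.range p) := convexHull_subset_affineSpan _ hx
    have hp' : p i0 ∈ affineSpan ℝ (Set.range p) := subset_affineSpan ℝ _ ⟨i0, rfl⟩
    have := AffineSubspace.vsub_mem_direction hx' hp'
    rwa [direction_affineSpan] at this
  rw [← hf] at h3
  have h4 := h2 h3
  rw [LinearMap.mem_ker, vsub_eq_sub, map_sub] at h4
  change (l - l') x - (l - l') (p i0) = 0 at h4
  rw [h1 i0 hi0, sub_apply] at h4
  unfold Phi
  linarith

theorem exists_cell {x : E} (hx : x ∈ convexHull ℝ (Set.range p)) :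
    ∃ l : E →L[ℝ] ℝ, Full p H l ∧ x ∈ Cell p H l := by
  classical
  -- best full functional
  have hfin : (Phi p H x '' {l | Full p H l}).Finite := by
    have hsub : Phi p H x '' {l | Full p H l} ⊆ Set.range (fun Q : Set ι =>
        if h : ∃ l, Full p H l ∧ Qs p H l = Q then Phi p H x h.choose else 0) := by
      rintro _ ⟨l, hl, rfl⟩
      refine ⟨Qs p H l, ?_⟩
      have h : ∃ l', Full p H l' ∧ Qs p H l' = Qs p H l := ⟨l, hl, rfl⟩
      simp only [dif_pos h]
      exact Phi_eq_of_Qs_eq hx h.choose_spec.1 h.choose_spec.2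
    exact (Set.finite_range _).subset hsub
  obtain ⟨lf, _, hlf⟩ := exists_full (p := p) (H := H) hx 0
  obtain ⟨v, ⟨l, hl, rfl⟩, hmax⟩ := Set.exists_max_image _ id hfin ⟨_, ⟨lf, hlf, rfl⟩⟩
  refine ⟨l, hl, ?_⟩
  by_contra hcon
  -- separate
  have hclosed : IsClosed (Cell p H l) :=
    ((Set.toFinite (p '' Qs p H l)).isCompact_convexHull ℝ).isClosed
  obtain ⟨μ, u, hμ1, hμ2⟩ := geometric_hahn_banach_closed_point (convex_convexHull ℝ _)
    hclosed hcon
  have hsep : ∀ i ∈ Qs p H l, μ (p i) < μ x := fun i hi =>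
    (hμ1 (p i) (subset_convexHull ℝ _ ⟨i, hi, rfl⟩)).trans hμ2
  set m := minv p H l with hm
  have hev : ∀ j : ι, ∀ᶠ t : ℝ in nhdsWithin 0 (Set.Ioi 0),
      0 < H j - l (p j) - m + t * (μ x - μ (p j)) := by
    intro j
    by_cases hj : j ∈ Qs p H l
    · filter_upwards [self_mem_nhdsWithin] with t ht
      have h1 := mem_Qs_iff.1 hj
      have h2 := hsep j hj
      have h3 : 0 < t * (μ x - μ (p j)) := mul_pos ht (by linarith)
      linarith
    · have h1 : 0 < H j - l (p j) - m := by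
        have g1 := minv_le (p := p) (H := H) (l := l) j
        rcases g1.lt_or_eq with h | h
        · linarith
        · exact absurd (mem_Qs_iff.2 h.symm) hj
      have hcont : Continuous fun t : ℝ => H j - l (p j) - m + t * (μ x - μ (p j)) := by
        fun_prop
      have h2 : ∀ᶠ t : ℝ in nhds 0, 0 < H j - l (p j) - m + t * (μ x - μ (p j)) := by
        apply hcont.continuousAt.eventually (lt_mem_nhds _)
        simpa using h1
      exact h2.filter_mono nhdsWithin_le_nhds
  have hall := (Filter.eventually_all.2 hev)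
  obtain ⟨t, ht1, ht2⟩ := (hall.and self_mem_nhdsWithin).exists
  have hlt : Phi p H x l < Phi p H x (l + t • μ) := by
    unfold Phi
    obtain ⟨i, hi⟩ := Qs_nonempty (p := p) (H := H) (l := l + t • μ)
    have h1 := mem_Qs_iff.1 hi
    have h2 := ht1 i
    simp only [add_apply, smul_apply, smul_eq_mul] at h1 ⊢
    rw [← h1, ← hm]
    linarith
  obtain ⟨l', h1, h2⟩ := exists_full (p := p) (H := H) hx (l + t • μ)
  have h3 := hmax _ ⟨l', h2, rfl⟩
  simp only [id] at h3
  linarith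

end

end Pool.Agent.H146.DA
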