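import Pool.Agent.H146.DA.Viol
import Pool.Agent.H146.DA.Regular

/-!
# Assembly
-/

namespace Pool.Agent.H146.DA

open Finset Pointwise

variable {n : ℕ}

theorem pt_eq_sum (σ : Equiv.Perm (Fin n)) : pt σ = ∑ k ∈ range (n + 1), ind (lev σ k) := by
  ext i
  rw [Finset.sum_apply]
  simp only [pt, ind, mem_lev]
  rw [← sum_filter, sum_const, nsmul_eq_mul, mul_one]
  have h1 : (range (n + 1)).filter (fun k => n ≤ (σ i).val + k) = Ico (n - (σ i).val) (n + 1) := by
    ext k; simp only [mem_filter, mem_range, mem_Ico]; omega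
  rw [h1, Nat.card_Ico]
  have h2 := (σ i).isLt
  have h3 : n + 1 - (n - (σ i).val) = (σ i).val + 1 := by omega
  rw [h3]; push_cast; ring

/-- Value of a functional on coordinate vectors. -/
noncomputable def coef (l : (Fin n → ℝ) →L[ℝ] ℝ) (i : Fin n) : ℝ := l (Pi.single i 1)

theorem l_ind (l : (Fin n → ℝ) →L[ℝ] ℝ) (B : Finset (Fin n)) : l (ind B) = ∑ i ∈ B, coef l i := by
  have h1 : ind B = ∑ i ∈ B, Pi.single i (1 : ℝ) := by
    ext j
    rw [Finset.sum_apply]
    simp only [ind, Pi.single_apply]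
    rw [sum_ite_eq]
  rw [h1, map_sum]; rfl

theorem height_shift (w : Finset (Fin n) → ℝ) (l : (Fin n → ℝ) →L[ℝ] ℝ)
    (σ : Equiv.Perm (Fin n)) :
    height (shift w (fun i => - coef l i)) σ = height w σ - l (pt σ) := by
  rw [pt_eq_sum, map_sum]
  unfold height
  rw [← sum_sub_distrib]
  apply sum_congr rfl
  intro k _
  rw [l_ind]
  simp only [shift, sum_neg_distrib]
  ring

theorem Qs_interval {w : Finset (Fin n) → ℝ} (h : T1 w) (l : (Fin n → ℝ) →L[ℝ] ℝ) :
    ∃ u v : Equiv.Perm (Fin n), Qs pt (height w) l = {σ | BruhatLE u σ ∧ BruhatLE σ v} := by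
  obtain ⟨u, v, huv⟩ := cell_interval (h.shift (fun i => - coef l i))
  refine ⟨u, v, ?_⟩
  ext σ
  rw [Set.mem_ofPred_eq, ← huv σ]
  simp only [height_shift]
  rfl

theorem BruhatLE.trans {u v w : Equiv.Perm (Fin n)} (h1 : BruhatLE u v) (h2 : BruhatLE v w) :
    BruhatLE u w := Relation.ReflTransGen.trans h1 h2

/-- levelwise minimisers of a `T1` function form a flag -/
theorem exists_levelwise_min {w : Finset (Fin n) → ℝ} (h : T1 w) :
    ∃ σ : Equiv.Perm (Fin n), ∀ B : Finset (Fin n), w (lev σ B.card) ≤ w B := by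
  classical
  have hex : ∀ k, ∃ m : ℝ, k ≤ n → (∃ B : Finset (Fin n), B.card = k ∧ w B = m) ∧
      ∀ B : Finset (Fin n), B.card = k → m ≤ w B := by
    intro k
    by_cases hk : k ≤ n
    · have hne : (univ.filter (fun B : Finset (Fin n) => B.card = k)).Nonempty := by
        obtain ⟨B, hB⟩ := exists_subset_card_eq (s := (univ : Finset (Fin n))) (n := k)
          (by simpa using hk)
        exact ⟨B, by simp [hB.2]⟩
      obtain ⟨B, hB, hmin⟩ := exists_min_image _ w hne
      simp only [mem_filter, mem_univ, true_and] at hB hmin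
      exact ⟨w B, fun _ => ⟨⟨B, hB, rfl⟩, hmin⟩⟩
    · exact ⟨0, fun h => absurd h hk⟩
  choose m hm using hex
  set w' : Finset (Fin n) → ℝ := fun B => w B - m B.card with hw'
  have hcardle : ∀ B : Finset (Fin n), B.card ≤ n := fun B => by simpa using card_le_univ B
  have h' : T1 w' := by
    intro S a b c hab hbc ha hb hc
    have h1 := h S a b c hab hbc ha hb hc
    have hac : a < c := hab.trans hbc
    have c1 : (insert a (insert c S)).card = S.card + 2 := by
      rw [card_insert_of_notMem (by simp [hac.ne, ha]), card_insert_of_notMem hc]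
    have c2 : (insert b (insert c S)).card = S.card + 2 := by
      rw [card_insert_of_notMem (by simp [hbc.ne, hb]), card_insert_of_notMem hc]
    have c3 : (insert a (insert b S)).card = S.card + 2 := by
      rw [card_insert_of_notMem (by simp [hab.ne, ha]), card_insert_of_notMem hb]
    simp only [hw', c1, c2, c3, card_insert_of_notMem ha, card_insert_of_notMem hb,
      card_insert_of_notMem hc]
    rcases le_total (w (insert a S) + w (insert b (insert c S)))
      (w (insert c S) + w (insert a (insert b S))) with g | g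
    · rw [min_eq_left g] at h1
      rw [min_eq_left (by linarith)]; linarith
    · rw [min_eq_right g] at h1
      rw [min_eq_right (by linarith)]; linarith
  have h0 : ∀ B, 0 ≤ w' B := fun B => by
    have := (hm B.card (hcardle B)).2 B rfl
    simp only [hw']; linarith
  have hlev : ∀ k ≤ n, ∃ B : Finset (Fin n), B.card = k ∧ w' B = 0 := by
    intro k hk
    obtain ⟨B, hB, hBm⟩ := (hm k hk).1
    exact ⟨B, hB, by simp only [hw', hB, hBm, sub_self]⟩
  obtain ⟨u, v, hu, _⟩ := zeroFlags_interval h' h0 hlev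
  refine ⟨u, fun B => ?_⟩
  have h1 := hu B.card (hcardle B)
  simp only [hw', card_lev u (hcardle B)] at h1
  have h2 := (hm B.card (hcardle B)).2 B rfl
  linarith

theorem vectorSpan_convexHull' (s : Set (Fin n → ℝ)) :
    vectorSpan ℝ (convexHull ℝ s) = vectorSpan ℝ s := by
  rw [← direction_affineSpan, ← direction_affineSpan, affineSpan_convexHull]

/-- the hyperplane of zero sum vectors -/
def sumZero (n : ℕ) : Submodule ℝ (Fin n → ℝ) :=
  LinearMap.ker (∑ i : Fin n, LinearMap.proj (R := ℝ) (φ := fun _ : Fin n => ℝ) i)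

theorem mem_sumZero {x : Fin n → ℝ} : x ∈ sumZero n ↔ ∑ i, x i = 0 := by
  simp [sumZero, LinearMap.mem_ker, LinearMap.sum_apply]

theorem finrank_sumZero (hn : 1 ≤ n) : Module.finrank ℝ (sumZero n) = n - 1 := by
  have h1 := LinearMap.finrank_range_add_finrank_ker
    (∑ i : Fin n, LinearMap.proj (R := ℝ) (φ := fun _ : Fin n => ℝ) i)
  have h2 : LinearMap.range (∑ i : Fin n, LinearMap.proj (R := ℝ) (φ := fun _ : Fin n => ℝ) i)
      = ⊤ := by
    rw [LinearMap.range_eq_top]
    intro y
    refine ⟨Pi.single ⟨0, hn⟩ y, ?_⟩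
    simp [LinearMap.sum_apply, Finset.sum_pi_single']
  rw [h2, finrank_top] at h1
  simp only [Module.finrank_self, Module.finrank_fin_fun] at h1
  change _ + Module.finrank ℝ (sumZero n) = n at h1
  omega

theorem vectorSpan_perm : vectorSpan ℝ (Set.range (pt : Equiv.Perm (Fin n) → Fin n → ℝ)) =
    sumZero n := by
  apply le_antisymm
  · rw [vectorSpan_def, Submodule.span_le]
    rintro _ ⟨_, ⟨σ, rfl⟩, _, ⟨τ, rfl⟩, rfl⟩
    rw [SetLike.mem_coe, mem_sumZero]
    simp only [vsub_eq_sub, Pi.sub_apply, sum_sub_distrib]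
    have : ∀ σ : Equiv.Perm (Fin n), ∑ i, pt σ i = ∑ i : Fin n, ((i.val : ℝ) + 1) := by
      intro σ
      exact Equiv.sum_comp σ (fun i : Fin n => ((i.val : ℝ) + 1))
    rw [this σ, this τ, sub_self]
  · intro x hx
    rw [mem_sumZero] at hx
    by_cases hn : n = 0
    · subst hn
      have : x = 0 := by ext i; exact i.elim0
      rw [this]; exact Submodule.zero_mem _
    have hpos : 0 < n := Nat.pos_of_ne_zero hn
    set i0 : Fin n := ⟨0, hpos⟩ with hi0
    have hx2 : x = ∑ i, x i • (Pi.single i (1 : ℝ) - Pi.single i0 (1 : ℝ) : Fin n → ℝ) := by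
      simp only [smul_sub, sum_sub_distrib, ← sum_smul, hx, zero_smul, sub_zero]
      ext j
      rw [Finset.sum_apply]
      simp [Pi.single_apply]
    rw [hx2]
    apply Submodule.sum_mem
    intro i _
    apply Submodule.smul_mem
    by_cases hi : i = i0
    · rw [hi, sub_self]; exact Submodule.zero_mem _
    have h1 : pt (1 : Equiv.Perm (Fin n)) -ᵥ pt (Equiv.swap i i0) ∈
        vectorSpan ℝ (Set.range (pt : Equiv.Perm (Fin n) → Fin n → ℝ)) :=
      vsub_mem_vectorSpan ℝ ⟨_, rfl⟩ ⟨_, rfl⟩
    have hival : (i.val : ℝ) ≠ 0 := by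
      have : i.val ≠ 0 := fun h => hi (Fin.ext h)
      exact_mod_cast this
    have h2 : (Pi.single i (1 : ℝ) - Pi.single i0 (1 : ℝ) : Fin n → ℝ) =
        (i.val : ℝ)⁻¹ • (pt (1 : Equiv.Perm (Fin n)) -ᵥ pt (Equiv.swap i i0)) := by
      ext j
      simp only [Pi.sub_apply, Pi.smul_apply, vsub_eq_sub, pt, Equiv.Perm.coe_one, id,
        smul_eq_mul, Equiv.swap_apply_def, Pi.single_apply]
      by_cases h3 : j = i
      · subst h3
        rw [if_pos rfl, if_neg hi, if_pos rfl]
        simp only [hi0]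
        field_simp
        simp
      · by_cases h4 : j = i0
        · rw [if_neg h3, if_pos h4, if_neg h3, if_pos h4, h4]
          simp only [hi0]
          field_simp
          simp
        · rw [if_neg h3, if_neg h4, if_neg h3, if_neg h4]
          ring
    rw [h2]
    exact Submodule.smul_mem _ _ h1

/-- The polytope of an LPFM is the convex hull of its flags. -/
theorem flagPolytope_eq {M : ℕ → Matroid (Fin n)} {U L : ℕ → Finset (Fin n)}
    (h : ∀ k, 1 ≤ k → k ≤ n → IsLPM k (U k) (L k) (M k))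
    (hq : ∀ k, 1 ≤ k → k < n → IsQuotient (M k) (M (k + 1))) :
    flagPolytope M = convexHull ℝ (pt '' {σ : Equiv.Perm (Fin n) |
      ∀ k, 1 ≤ k → k ≤ n → (M k).IsBase ↑(lev σ k)}) := by
  classical
  have hsum : ∀ σ : Equiv.Perm (Fin n), pt σ = ∑ k ∈ Icc 1 n, ind (lev σ k) := by
    intro σ
    rw [pt_eq_sum]
    have h1 : range (n + 1) = insert 0 (Icc 1 n) := by
      ext k; simp only [mem_range, mem_insert, mem_Icc]; omega
    rw [h1, sum_insert (by simp), lev_zero]
    have h2 : ind (∅ : Finset (Fin n)) = 0 := by ext i; simp [ind]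
    rw [h2, zero_add]
  apply Set.Subset.antisymm
  · -- separation
    intro x hx
    by_contra hcon
    set F : Set (Equiv.Perm (Fin n)) := {σ | ∀ k, 1 ≤ k → k ≤ n → (M k).IsBase ↑(lev σ k)}
      with hF
    have hclosed : IsClosed (convexHull ℝ (pt '' F)) :=
      ((Set.toFinite (pt '' F)).isCompact_convexHull ℝ).isClosed
    obtain ⟨μ, u, hμ1, hμ2⟩ := geometric_hahn_banach_closed_point (convex_convexHull ℝ _)
      hclosed hcon
    -- big constant
    set K : ℝ := ∑ i, |coef μ i| with hK
    have hK0 : 0 ≤ K := sum_nonneg fun i _ => abs_nonneg _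
    have hbd : ∀ B : Finset (Fin n), |μ (ind B)| ≤ K := by
      intro B
      rw [l_ind]
      refine (abs_sum_le_sum_abs _ _).trans ?_
      exact sum_le_sum_of_subset_of_nonneg (subset_univ _) (fun i _ _ => abs_nonneg _)
    have hT : T1 (shift (fun X => (2 * K + 1) * W U L X) (fun i => - coef μ i)) :=
      ((W_T1 h hq).smul (by positivity)).shift _
    obtain ⟨σ, hσ⟩ := exists_levelwise_min hT
    have hval : ∀ B : Finset (Fin n), shift (fun X => (2 * K + 1) * W U L X)
        (fun i => - coef μ i) B = (2 * K + 1) * W U L B - μ (ind B) := by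
      intro B
      simp only [shift, l_ind, sum_neg_distrib]; ring
    simp only [hval] at hσ
    have hcard : ∀ k, k ≤ n → (lev σ k).card = k := fun k hk => card_lev σ hk
    have hbase : ∀ k, 1 ≤ k → k ≤ n → (M k).IsBase ↑(lev σ k) := by
      intro k hk1 hk2
      have hU := lpm_U (h k hk1 hk2)
      have hUc : (U k).card = k := (h k hk1 hk2).cardU
      have h1 := hσ (U k)
      rw [hUc] at h1
      have h2 : W U L (U k) = 0 := by
        rw [W_eq_zero h (by omega), hUc]; exact hU
      rw [h2] at h1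
      have h3 := abs_le.1 (hbd (U k))
      have h4 := abs_le.1 (hbd (lev σ k))
      have h5 : W U L (lev σ k) = 0 := by
        by_contra hne
        have h6 := W_one_le U L _ hne
        have h7 : (2 * K + 1) * 1 ≤ (2 * K + 1) * W U L (lev σ k) :=
          mul_le_mul_of_nonneg_left h6 (by positivity)
        linarith
      rw [W_eq_zero h (by rw [hcard k hk2]; exact hk1), hcard k hk2] at h5
      exact h5
    have hmax : ∀ k, 1 ≤ k → k ≤ n → ∀ y ∈ basePolytope (M k), μ y ≤ μ (ind (lev σ k)) := by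
      intro k hk1 hk2 y hy
      have hsub : basePolytope (M k) ⊆ {y | μ y ≤ μ (ind (lev σ k))} := by
        apply convexHull_min
        · rintro _ ⟨B, hB, rfl⟩
          have hBc : B.card = k := (((h k hk1 hk2).isBase' B).1 hB).1
          have h1 := hσ B
          rw [hBc] at h1
          have h2 : W U L B = 0 := by rw [W_eq_zero h (by omega), hBc]; exact hB
          have h3 : W U L (lev σ k) = 0 := by
            rw [W_eq_zero h (by rw [hcard k hk2]; exact hk1), hcard k hk2]
            exact hbase k hk1 hk2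
          rw [h2, h3] at h1
          rw [Set.mem_ofPred_eq]
          linarith
        · exact convex_halfSpace_le (μ : (Fin n → ℝ) →ₗ[ℝ] ℝ).isLinear _
      exact hsub hy
    rw [flagPolytope, Set.mem_finsetSum] at hx
    obtain ⟨g, hg, rfl⟩ := hx
    have h1 : μ (∑ k ∈ Icc 1 n, g k) ≤ μ (pt σ) := by
      rw [hsum σ, map_sum, map_sum]
      apply sum_le_sum
      intro k hk
      have hk' := mem_Icc.1 hk
      exact hmax k hk'.1 hk'.2 _ (hg hk)
    have h2 : μ (pt σ) < u := hμ1 _ (subset_convexHull ℝ _ ⟨σ, hbase, rfl⟩)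
    linarith
  · apply convexHull_min
    · rintro _ ⟨σ, hσ, rfl⟩
      rw [hsum σ, flagPolytope]
      apply Set.finsetSum_mem_finsetSum
      intro k hk
      have hk' := mem_Icc.1 hk
      exact subset_convexHull ℝ _ ⟨lev σ k, hσ k hk'.1 hk'.2, rfl⟩
    · exact convex_sum _ fun k _ => convex_convexHull ℝ _

theorem main (n : ℕ) (hn : 1 ≤ n) (M : ℕ → Matroid (Fin n)) (hM : IsLPFM M)
    (hfull : polyDim (flagPolytope M) = n - 1) :
    ∃ C : Set (Set (Fin n → ℝ)), IsBIPSubdivision n C ∧ flagPolytope M ∈ C := by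
  classical
  have hex : ∀ k, ∃ U L : Finset (Fin n), (1 ≤ k → k ≤ n → IsLPM k U L (M k)) ∧
      (k = 0 → U = ∅ ∧ L = ∅) := by
    intro k
    by_cases hk : 1 ≤ k ∧ k ≤ n
    · obtain ⟨U, L, h⟩ := hM.lpm k hk.1 hk.2
      exact ⟨U, L, fun _ _ => h, fun h0 => absurd hk.1 (by omega)⟩
    · exact ⟨∅, ∅, fun h1 h2 => absurd ⟨h1, h2⟩ hk, fun _ => ⟨rfl, rfl⟩⟩
  choose U L hUL using hex
  have h : ∀ k, 1 ≤ k → k ≤ n → IsLPM k (U k) (L k) (M k) := fun k => (hUL k).1
  have hT := W_T1 h hM.quot
  set H : Equiv.Perm (Fin n) → ℝ := height (W U L) with hH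
  have hW0 : W U L ∅ = 0 := by
    unfold W viol
    rw [card_empty, (( hUL 0).2 rfl).1, ((hUL 0).2 rfl).2]
    simp
  have hconv : convexHull ℝ (Set.range (pt : Equiv.Perm (Fin n) → Fin n → ℝ)) =
    permutahedron n := rfl
  -- full-dimensionality
  have hdim : ∀ Q : Set (Equiv.Perm (Fin n)), polyDim (convexHull ℝ (pt '' Q)) = n - 1 ↔
      vectorSpan ℝ (pt '' Q) = vectorSpan ℝ (Set.range (pt : Equiv.Perm (Fin n) → _)) := by
    intro Q
    unfold polyDim
    rw [vectorSpan_convexHull']
    have hle : vectorSpan ℝ (pt '' Q) ≤ vectorSpan ℝ (Set.range (pt : Equiv.Perm (Fin n) → _)) :=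
      vectorSpan_mono ℝ (Set.image_subset_range _ _)
    constructor
    · intro h1
      apply Submodule.eq_of_le_of_finrank_eq hle
      rw [vectorSpan_perm, finrank_sumZero hn, h1]
    · intro h1
      rw [h1, vectorSpan_perm, finrank_sumZero hn]
  refine ⟨{P | ∃ l : (Fin n → ℝ) →L[ℝ] ℝ, Full pt H l ∧ P = Cell pt H l}, ?_, ?_⟩
  · constructor
    · -- finite
      have hsub : {P | ∃ l : (Fin n → ℝ) →L[ℝ] ℝ, Full pt H l ∧ P = Cell pt H l} ⊆
          (fun Q : Set (Equiv.Perm (Fin n)) => convexHull ℝ (pt '' Q)) '' Set.univ := by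
        rintro _ ⟨l, _, rfl⟩
        exact ⟨Qs pt H l, Set.mem_univ _, rfl⟩
      exact (Set.toFinite _).subset hsub
    · rintro _ ⟨l, _, rfl⟩
      obtain ⟨u, v, huv⟩ := Qs_interval hT l
      refine ⟨u, v, ?_, by rw [Cell, hH, huv]⟩
      obtain ⟨σ, hσ⟩ := Qs_nonempty (p := pt) (H := height (W U L)) (l := l)
      rw [huv] at hσ
      exact hσ.1.trans hσ.2
    · rintro _ ⟨l, hl, rfl⟩
      exact (hdim _).2 hl
    · apply Set.Subset.antisymm
      · rintro x ⟨_, ⟨l, _, rfl⟩, hx⟩
        exact convexHull_mono (Set.image_subset_range _ _) hx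
      · intro x hx
        obtain ⟨l, hl, hxl⟩ := exists_cell (p := pt) (H := H) hx
        exact ⟨_, ⟨l, hl, rfl⟩, hxl⟩
    · rintro _ ⟨l, _, rfl⟩ _ ⟨l', _, rfl⟩
      refine ⟨cell_inter_exposed l', ?_⟩
      rw [Set.inter_comm]
      exact cell_inter_exposed l
  · -- the flag polytope is the cell of the zero functional
    have hnonneg : ∀ B, 0 ≤ W U L B := W_nonneg U L
    obtain ⟨τ, hτ⟩ := exists_levelwise_min hT
    have hτ0 : ∀ k ≤ n, W U L (lev τ k) = 0 := by
      intro k hk
      rcases Nat.eq_zero_or_pos k with h0 | h0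
      · rw [h0, lev_zero]; exact hW0
      · have h1 := hτ (U k)
        rw [(h k h0 hk).cardU] at h1
        have h2 : W U L (U k) = 0 := by
          rw [W_eq_zero h (by rw [(h k h0 hk).cardU]; exact h0), (h k h0 hk).cardU]
          exact lpm_U (h k h0 hk)
        exact le_antisymm (h2 ▸ h1) (hnonneg _)
    have hHτ : H τ = 0 := by
      rw [hH, height]
      apply sum_eq_zero
      intro k hk; rw [mem_range] at hk; exact hτ0 k (by omega)
    have hQ : Qs pt H 0 = {σ : Equiv.Perm (Fin n) |
        ∀ k, 1 ≤ k → k ≤ n → (M k).IsBase ↑(lev σ k)} := by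
      ext σ
      have hHσ : H σ = 0 ↔ ∀ k, 1 ≤ k → k ≤ n → (M k).IsBase ↑(lev σ k) := by
        rw [hH, height, sum_eq_zero_iff_of_nonneg (fun k _ => hnonneg _)]
        constructor
        · intro h1 k hk1 hk2
          have h2 := h1 k (by rw [mem_range]; omega)
          rwa [W_eq_zero h (by rw [card_lev σ hk2]; exact hk1), card_lev σ hk2] at h2
        · intro h1 k hk
          rw [mem_range] at hk
          rcases Nat.eq_zero_or_pos k with h0 | h0
          · rw [h0, lev_zero]; exact hW0
          · have hk2 : k ≤ n := by omega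
            rw [W_eq_zero h (by rw [card_lev σ hk2]; exact h0), card_lev σ hk2]
            exact h1 k h0 hk2
      rw [Set.mem_ofPred_eq, ← hHσ]
      have hHnn : ∀ ρ, 0 ≤ H ρ := fun ρ => sum_nonneg fun k _ => hnonneg _
      constructor
      · intro h1
        have h2 := h1 τ
        simp only [zero_apply, sub_zero, hHτ] at h2
        exact le_antisymm h2 (hHnn σ)
      · intro h1 ρ
        simp only [zero_apply, sub_zero, h1]
        exact hHnn ρ
    have hP : flagPolytope M = Cell pt H 0 := by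
      rw [flagPolytope_eq h hM.quot, Cell, hQ]
    refine ⟨0, ?_, hP⟩
    rw [hP] at hfull
    exact (hdim _).1 hfull

end Pool.Agent.H146.DA
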