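import Pool.Agent.H146.DA.Perm

/-!
# Lattice path matroids: quotients, and the violation function
-/

namespace Pool.Agent.H146.DA

open Finset

variable {n : ℕ}

theorem cnt_eq_pathHeight (P : Finset (Fin n)) (i : ℕ) : cnt P i = pathHeight P i :=
  cnt_eq_card P i

section quotient

variable {α : Type*} {M N : Matroid α}

theorem IsQuotient.exists_mem (h : IsQuotient M N) {C : Set α} (hC : N.IsCircuit C) {e : α}
    (he : e ∈ C) : ∃ D ⊆ C, M.IsCircuit D ∧ e ∈ D := by
  obtain ⟨D, hD, rfl⟩ := h C hC
  obtain ⟨X, hX, heX⟩ := he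
  exact ⟨X, Set.subset_sUnion_of_mem hX, hD X hX, heX⟩

theorem IsQuotient.indep (h : IsQuotient M N) (hN : N.E = Set.univ) {I : Set α}
    (hI : M.Indep I) : N.Indep I := by
  by_contra hcon
  have hdep : N.Dep I := ⟨hcon, by rw [hN]; exact Set.subset_univ _⟩
  obtain ⟨C, hCI, hC⟩ := hdep.exists_isCircuit_subset
  obtain ⟨e, he⟩ := hC.nonempty
  obtain ⟨D, hDC, hD, _⟩ := h.exists_mem hC he
  exact hD.not_indep (hI.subset (hDC.trans hCI))

theorem IsQuotient.closure (h : IsQuotient M N) (hM : M.E = Set.univ) (X : Set α) :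
    N.closure X ⊆ M.closure X := by
  intro e he
  by_cases heX : e ∈ X
  · exact M.mem_closure_of_mem heX (by rw [hM]; exact Set.subset_univ _)
  obtain ⟨C, hCX, hC, heC⟩ := Matroid.exists_isCircuit_of_mem_closure he heX
  obtain ⟨D, hDC, hD, heD⟩ := h.exists_mem hC heC
  have h1 := hD.mem_closure_sdiff_singleton_of_mem heD
  refine M.closure_subset_closure ?_ h1
  intro x hx
  rcases hCX (hDC hx.1) with h2 | h2
  · exact absurd h2 hx.2
  · exact h2

theorem IsQuotient.up (h : IsQuotient M N) (hN : N.E = Set.univ) {B : Set α}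
    (hB : M.IsBase B) : ∃ B', N.IsBase B' ∧ B ⊆ B' :=
  (h.indep hN hB.indep).exists_isBase_superset

theorem IsQuotient.down (h : IsQuotient M N) (hM : M.E = Set.univ) (hN : N.E = Set.univ)
    {B' : Set α} (hB' : N.IsBase B') : ∃ B, M.IsBase B ∧ B ⊆ B' := by
  have h1 : M.Spanning B' := by
    rw [Matroid.spanning_iff_ground_subset_closure (by rw [hM]; exact Set.subset_univ _)]
    have h2 := h.closure hM B'
    rw [hB'.closure_eq, hN] at h2
    rw [hM]; exact h2
  exact h1.exists_isBase_subset

theorem IsQuotient.greedy (h : IsQuotient M N) (hM : M.E = Set.univ) (hN : N.E = Set.univ)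
    (r : α → α → Prop) (hr : ∀ x y, r x y → ¬ r y x) {B B' : Set α} (hB : M.IsBase B)
    (hB' : N.IsBase B') (h1 : ∀ e ∈ B, ∀ y, y ∉ B → M.IsBase (insert y (B \ {e})) → r e y)
    (h2 : ∀ x ∈ B', ∀ e, e ∉ B' → N.IsBase (insert e (B' \ {x})) → r x e) : B ⊆ B' := by
  intro e heB
  by_contra heB'
  have hC := hB'.fundCircuit_isCircuit (x := e) (by rw [hN]; exact Set.mem_univ _) heB'
  obtain ⟨D, hDC, hD, heD⟩ := h.exists_mem hC (N.mem_fundCircuit e B')
  have hnot : ¬ D \ {e} ⊆ M.closure (B \ {e}) := by
    intro hsub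
    have h3 := hD.mem_closure_sdiff_singleton_of_mem heD
    have h4 := M.closure_subset_closure_of_subset_closure hsub h3
    have h5 := (hB.indep.sdiff {e}).notMem_closure_iff_of_notMem (e := e) (by simp)
      (by rw [hM]; exact Set.mem_univ _)
    apply h5.2 _ h4
    rw [Set.insert_sdiff_singleton, Set.insert_eq_of_mem heB]
    exact hB.indep
  rw [Set.not_subset] at hnot
  obtain ⟨y, hyD, hycl⟩ := hnot
  have hye : y ≠ e := hyD.2
  have hyB : y ∉ B := by
    intro hyB
    exact hycl (M.mem_closure_of_mem ⟨hyB, hye⟩ (by rw [hM]; exact Set.subset_univ _))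
  have hind : M.Indep (insert y (B \ {e})) := by
    rw [← (hB.indep.sdiff {e}).notMem_closure_iff_of_notMem (fun h => hyB h.1)
      (by rw [hM]; exact Set.mem_univ _)]
    exact hycl
  have hr1 := h1 e heB y hyB (hB.exchange_isBase_of_indep hyB hind)
  have hyC : y ∈ N.fundCircuit e B' := hDC hyD.1
  have hyB' : y ∈ B' := by
    rcases N.fundCircuit_subset_insert e B' hyC with h | h
    · exact absurd h hye
    · exact h
  have hecl : e ∈ N.closure B' := by rw [hB'.closure_eq, hN]; exact Set.mem_univ _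
  rw [hB'.indep.mem_fundCircuit_iff hecl heB'] at hyC
  have hbase := hB'.exchange_isBase_of_indep' hyB' heB' hyC
  rw [← Set.insert_sdiff_singleton_comm hye.symm] at hbase
  exact hr _ _ hr1 (h2 y hyB' e heB' hbase)

end quotient

/-- A unit-step function is the height function of a lattice path. -/
theorem path_of (h : ℕ → ℕ) (h0 : h 0 = 0) (hs : ∀ j < n, h (j + 1) = h j ∨ h (j + 1) = h j + 1) :
    ∃ B : Finset (Fin n), ∀ j ≤ n, cnt B j = h j := by
  refine ⟨univ.filter (fun x : Fin n => h (x.val + 1) = h x.val + 1), ?_⟩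
  intro j
  induction j with
  | zero =>
    intro _
    rw [h0, cnt]
    apply sum_eq_zero; intro x _; rw [if_neg]; omega
  | succ j ih =>
    intro hj
    have h1 := cnt_add_win (univ.filter (fun x : Fin n => h (x.val + 1) = h x.val + 1))
      (Nat.le_succ j)
    rw [Nat.succ_eq_add_one, ih (by omega)] at h1
    rw [h1]
    have h2 : win (univ.filter (fun x : Fin n => h (x.val + 1) = h x.val + 1)) j (j + 1) =
        if h (j + 1) = h j + 1 then 1 else 0 := by
      unfold win
      rw [sum_filter]
      have h3 : ∀ x : Fin n, (if h (x.val + 1) = h x.val + 1 then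
          if j ≤ x.val ∧ x.val < j + 1 then 1 else 0 else 0) =
          if x = (⟨j, by omega⟩ : Fin n) then (if h (j + 1) = h j + 1 then 1 else 0) else 0 := by
        intro x
        by_cases hx : x = (⟨j, by omega⟩ : Fin n)
        · subst hx; simp
        · have : x.val ≠ j := fun hc => hx (Fin.ext hc)
          rw [if_neg hx]
          split_ifs <;> omega
      rw [sum_congr rfl (fun x _ => h3 x), sum_ite_eq' univ]
      simp
    rw [h2]
    rcases hs j (by omega) with h3 | h3
    · rw [if_neg (by omega)]; omega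
    · rw [if_pos h3, h3]

theorem cnt_top (B : Finset (Fin n)) {i : ℕ} (hi : n ≤ i) : cnt B i = B.card := by
  unfold cnt
  rw [card_eq_sum_ones]
  apply sum_congr rfl
  intro x _; rw [if_pos]; omega

theorem cnt_zero (B : Finset (Fin n)) : cnt B 0 = 0 := by
  unfold cnt; apply sum_eq_zero; intro x _; rw [if_neg]; omega

theorem win_le_len (B : Finset (Fin n)) (b i : ℕ) : win B b i ≤ i - b := by
  unfold win
  rw [← card_filter, ← card_map Fin.valEmbedding, ← Nat.card_Ico]
  apply card_le_card
  intro x hx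
  simp only [mem_map, mem_filter, Fin.valEmbedding_apply] at hx
  obtain ⟨y, hy, rfl⟩ := hx
  rw [mem_Ico]; exact hy.2

theorem cnt_mono (B : Finset (Fin n)) {i j : ℕ} (h : i ≤ j) : cnt B i ≤ cnt B j := by
  rw [cnt_add_win B h]; omega

theorem cnt_lip (B : Finset (Fin n)) {i j : ℕ} (h : i ≤ j) : cnt B j ≤ cnt B i + (j - i) := by
  have := cnt_add_win B h
  have := win_le_len B i j
  omega

theorem IsLPM.isBase' {k : ℕ} {U L : Finset (Fin n)} {M : Matroid (Fin n)} (h : IsLPM k U L M)
    (B : Finset (Fin n)) : M.IsBase ↑B ↔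
    B.card = k ∧ ∀ i ≤ n, cnt L i ≤ cnt B i ∧ cnt B i ≤ cnt U i := by
  rw [h.isBase]
  constructor
  · rintro ⟨h1, h2⟩; refine ⟨h1, fun i _ => ?_⟩
    simpa only [cnt_eq_pathHeight] using h2 i
  · rintro ⟨h1, h2⟩; refine ⟨h1, fun i => ?_⟩
    simp only [← cnt_eq_pathHeight]
    by_cases hi : i ≤ n
    · exact h2 i hi
    · rw [cnt_top L (by omega), cnt_top B (by omega), cnt_top U (by omega), h1, h.cardL, h.cardU]
      exact ⟨le_rfl, le_rfl⟩

section pair

variable {k : ℕ} {U L U' L' : Finset (Fin n)} {M M' : Matroid (Fin n)}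

theorem lpm_above (h : IsLPM k U L M) (i : ℕ) : cnt L i ≤ cnt U i := by
  simpa only [cnt_eq_pathHeight] using h.above i

theorem lpm_U (h : IsLPM k U L M) : M.IsBase ↑U := by
  rw [h.isBase']
  exact ⟨h.cardU, fun i _ => ⟨lpm_above h i, le_rfl⟩⟩

theorem lpm_L (h : IsLPM k U L M) : M.IsBase ↑L := by
  rw [h.isBase']
  exact ⟨h.cardL, fun i _ => ⟨le_rfl, lpm_above h i⟩⟩

theorem nested_U (h : IsLPM k U L M) (h' : IsLPM (k + 1) U' L' M') (hq : IsQuotient M M') :
    U ⊆ U' := by
  classical
  have key : ∀ {k : ℕ} {U L : Finset (Fin n)} {M : Matroid (Fin n)}, IsLPM k U L M →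
      ∀ e ∈ (↑U : Set (Fin n)), ∀ y, y ∉ (↑U : Set (Fin n)) →
      M.IsBase (insert y ((↑U : Set (Fin n)) \ {e})) → e < y := by
    intro k U L M h e he y hy hB
    rw [mem_coe] at he hy
    have e1 : (insert y ((↑U : Set (Fin n)) \ {e})) = ↑(insert y (U.erase e)) := by
      push_cast; rfl
    rw [e1, h.isBase'] at hB
    have hye : y ≠ e := fun h => hy (h ▸ he)
    have hye' : y.val ≠ e.val := fun h => hye (Fin.ext h)
    have h1 := (hB.2 (y.val + 1) (by omega)).2
    have h2 := cnt_exch he hy (y.val + 1)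
    rw [Fin.lt_def]
    split_ifs at h2 <;> omega
  have := hq.greedy h.ground h'.ground (fun x y => x < y) (fun x y hxy hyx => lt_asymm hxy hyx)
    (lpm_U h) (lpm_U h') (key h) (key h')
  exact_mod_cast this

theorem nested_L (h : IsLPM k U L M) (h' : IsLPM (k + 1) U' L' M') (hq : IsQuotient M M') :
    L ⊆ L' := by
  classical
  have key : ∀ {k : ℕ} {U L : Finset (Fin n)} {M : Matroid (Fin n)}, IsLPM k U L M →
      ∀ e ∈ (↑L : Set (Fin n)), ∀ y, y ∉ (↑L : Set (Fin n)) →
      M.IsBase (insert y ((↑L : Set (Fin n)) \ {e})) → y < e := by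
    intro k U L M h e he y hy hB
    rw [mem_coe] at he hy
    have e1 : (insert y ((↑L : Set (Fin n)) \ {e})) = ↑(insert y (L.erase e)) := by
      push_cast; rfl
    rw [e1, h.isBase'] at hB
    have hye : y ≠ e := fun h => hy (h ▸ he)
    have hye' : y.val ≠ e.val := fun h => hye (Fin.ext h)
    have h1 := (hB.2 (e.val + 1) (by omega)).1
    have h2 := cnt_exch he hy (e.val + 1)
    rw [Fin.lt_def]
    split_ifs at h2 <;> omega
  have := hq.greedy h.ground h'.ground (fun x y => y < x) (fun x y hxy hyx => lt_asymm hxy hyx)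
    (lpm_L h) (lpm_L h') (key h) (key h')
  exact_mod_cast this

/-- Condition (C1). -/
theorem cond1 (h : IsLPM k U L M) (h' : IsLPM (k + 1) U' L' M') (hq : IsQuotient M M')
    {i i' : ℕ} (hii : i ≤ i') (hi' : i' ≤ n) (hU : cnt U' i = cnt U i + 1)
    (hL : cnt L' i' = cnt L i') : cnt L i' ≤ cnt U i := by
  by_contra hcon
  rw [not_le] at hcon
  -- the path following `U'` up to `i` and then as flat as possible
  obtain ⟨B, hB⟩ := path_of (n := n)
    (fun j => if j ≤ i then cnt U' j else max (cnt U' i) (cnt L' j)) (by simp [cnt_zero]) (by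
      intro j hj
      have a1 := cnt_lip U' (Nat.le_succ j)
      have a2 := cnt_mono U' (Nat.le_succ j)
      have a3 := cnt_lip L' (Nat.le_succ j)
      have a4 := cnt_mono L' (Nat.le_succ j)
      have a5 := lpm_above h' j
      have a6 := lpm_above h' (j + 1)
      simp only [Nat.succ_eq_add_one] at a1 a2 a3 a4
      by_cases c1 : j + 1 ≤ i
      · simp only [if_pos c1, if_pos (show j ≤ i by omega)]; omega
      · by_cases c2 : j ≤ i
        · have : j = i := by omega
          subst this
          simp only [if_neg c1, if_pos c2]; omega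
        · simp only [if_neg c1, if_neg c2]; omega)
  have hbase : M'.IsBase ↑B := by
    rw [h'.isBase']
    constructor
    · rw [← cnt_top B le_rfl, hB n le_rfl]
      have b1 := cnt_top U' (le_refl n)
      have b2 := cnt_top L' (le_refl n)
      rw [h'.cardU] at b1
      rw [h'.cardL] at b2
      have b3 : cnt U' i ≤ k + 1 := by rw [← b1]; exact cnt_mono U' (by omega)
      split_ifs with c
      · exact b1
      · rw [b2]; omega
    · intro j hj
      rw [hB j hj]
      split_ifs with c
      · exact ⟨lpm_above h' j, le_rfl⟩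
      · have b1 := cnt_mono U' (show i ≤ j by omega)
        have b2 := lpm_above h' j
        omega
  obtain ⟨B0, hB0, hsub⟩ := hq.down h.ground h'.ground hbase
  obtain ⟨B1, rfl⟩ : ∃ B1 : Finset (Fin n), B0 = ↑B1 := ⟨(Set.toFinite B0).toFinset, by simp⟩
  rw [h.isBase'] at hB0
  have hsub' : B1 ⊆ B := by exact_mod_cast hsub
  have c1 := (hB0.2 i' hi').1
  have c2 := (hB0.2 i (by omega)).2
  have c3 := cnt_add_win B1 hii
  have c4 := win_mono hsub' i i'
  have c5 := cnt_add_win B hii
  rw [hB i (by omega), hB i' hi', if_pos le_rfl] at c5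
  split_ifs at c5 with c
  · have : i' = i := by omega
    subst this
    have := lpm_above h i'
    omega
  · omega

/-- Condition (C2). -/
theorem cond2 (h : IsLPM k U L M) (h' : IsLPM (k + 1) U' L' M') (hq : IsQuotient M M')
    {i i' : ℕ} (hii : i ≤ i') (hi' : i' ≤ n) (hL : cnt L' i = cnt L i + 1)
    (hU : cnt U' i' = cnt U i') : cnt L i + (i' - i) + 1 ≤ cnt U i' := by
  by_contra hcon
  rw [not_le] at hcon
  obtain ⟨B, hB⟩ := path_of (n := n)
    (fun j => if j ≤ i then cnt L j else min (cnt U j) (cnt L i + (j - i))) (by simp [cnt_zero]) (by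
      intro j hj
      have a1 := cnt_lip U (Nat.le_succ j)
      have a2 := cnt_mono U (Nat.le_succ j)
      have a3 := cnt_lip L (Nat.le_succ j)
      have a4 := cnt_mono L (Nat.le_succ j)
      have a5 := lpm_above h j
      have a6 := lpm_above h (j + 1)
      simp only [Nat.succ_eq_add_one] at a1 a2 a3 a4
      by_cases c1 : j + 1 ≤ i
      · simp only [if_pos c1, if_pos (show j ≤ i by omega)]; omega
      · by_cases c2 : j ≤ i
        · have : j = i := by omega
          subst this
          simp only [if_neg c1, if_pos c2]; omega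
        · simp only [if_neg c1, if_neg c2]; omega)
  have hbase : M.IsBase ↑B := by
    rw [h.isBase']
    constructor
    · rw [← cnt_top B le_rfl, hB n le_rfl]
      have b1 := cnt_top U (le_refl n)
      have b2 := cnt_top L (le_refl n)
      rw [h.cardU] at b1
      rw [h.cardL] at b2
      have b3 := cnt_lip L (show i ≤ n by omega)
      split_ifs with c
      · exact b2
      · rw [b1]; omega
    · intro j hj
      rw [hB j hj]
      split_ifs with c
      · exact ⟨le_rfl, lpm_above h j⟩
      · have b1 := cnt_lip L (show i ≤ j by omega)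
        have b2 := lpm_above h j
        omega
  obtain ⟨B0, hB0, hsub⟩ := hq.up h'.ground hbase
  obtain ⟨B1, rfl⟩ : ∃ B1 : Finset (Fin n), B0 = ↑B1 := ⟨(Set.toFinite B0).toFinset, by simp⟩
  rw [h'.isBase'] at hB0
  have hsub' : B ⊆ B1 := by exact_mod_cast hsub
  have c1 := (hB0.2 i' hi').2
  have c2 := (hB0.2 i (by omega)).1
  have c3 := cnt_add_win B1 hii
  have c4 := win_mono hsub' i i'
  have c5 := cnt_add_win B hii
  have c6 := lpm_above h i
  have c7 := cnt_mono U hii
  rw [hB i (by omega), hB i' hi', if_pos le_rfl] at c5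
  split_ifs at c5 with c
  · have : i' = i := by omega
    subst this
    omega
  · omega

end pair

end Pool.Agent.H146.DA
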