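import Pool.Agent.H146.DA.Sandwich
import Pool.Agent.H146.DA.Defs

/-!
# Permutations, flags of level sets and the Bruhat order
-/

namespace Pool.Agent.H146.DA

open Finset

variable {n : ℕ}

/-- `#{j < i : m ≤ σ j}`. -/
def N (σ : Equiv.Perm (Fin n)) (i m : ℕ) : ℕ :=
  ∑ j : Fin n, if j.val < i ∧ m ≤ (σ j).val then 1 else 0

theorem swap_mul_apply (u : Equiv.Perm (Fin n)) (a b : Fin n) (j : Fin n) :
    (u * Equiv.swap a b) j = if j = a then u b else if j = b then u a else u j := by
  rw [Equiv.Perm.mul_apply, Equiv.swap_apply_def]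
  split_ifs <;> rfl

theorem N_swap (u : Equiv.Perm (Fin n)) {a b : Fin n} (hab : a < b) (hu : u a < u b) (i m : ℕ) :
    N (u * Equiv.swap a b) i m =
      N u i m + if a.val < i ∧ i ≤ b.val ∧ (u a).val < m ∧ m ≤ (u b).val then 1 else 0 := by
  have hne : a ≠ b := hab.ne
  have hb : b ∈ (univ : Finset (Fin n)).erase a := by simp [hne.symm]
  unfold N
  rw [← add_sum_erase univ _ (mem_univ a), ← add_sum_erase univ (fun j => if j.val < i ∧
    m ≤ (u j).val then 1 else 0) (mem_univ a), ← add_sum_erase _ _ hb,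
    ← add_sum_erase _ (fun j => if j.val < i ∧ m ≤ (u j).val then 1 else 0) hb]
  have hrest : ∑ j ∈ ((univ : Finset (Fin n)).erase a).erase b,
      (if j.val < i ∧ m ≤ ((u * Equiv.swap a b) j).val then 1 else 0) =
      ∑ j ∈ ((univ : Finset (Fin n)).erase a).erase b,
      (if j.val < i ∧ m ≤ (u j).val then 1 else 0) := by
    apply sum_congr rfl
    intro j hj
    rw [mem_erase, mem_erase] at hj
    rw [swap_mul_apply, if_neg hj.2.1, if_neg hj.1]
  rw [hrest]
  have e1 : (u * Equiv.swap a b) a = u b := by simp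
  have e2 : (u * Equiv.swap a b) b = u a := by simp
  simp only [e1, e2]
  have h1 : a.val < b.val := hab
  have h2 : (u a).val < (u b).val := hu
  split_ifs <;> omega

theorem N_le_of_bruhat {u v : Equiv.Perm (Fin n)} (h : BruhatLE u v) (i m : ℕ) :
    N u i m ≤ N v i m := by
  induction h with
  | refl => exact le_rfl
  | tail _ hstep ih =>
    obtain ⟨a, b, hab, hu, rfl⟩ := hstep
    rw [N_swap _ hab hu]
    omega

/-- window counts -/
theorem N_split (σ : Equiv.Perm (Fin n)) (i : ℕ) {m M : ℕ} (h : m ≤ M) :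
    N σ i m = N σ i M + ∑ j : Fin n, if j.val < i ∧ m ≤ (σ j).val ∧ (σ j).val < M then 1 else 0 := by
  unfold N
  rw [← sum_add_distrib]
  apply sum_congr rfl
  intro j _
  split_ifs <;> omega

theorem eq_of_N {u v : Equiv.Perm (Fin n)} (h : ∀ i m, N u i m = N v i m) : u = v := by
  -- entry `u j` is the largest `m` with `N u (j+1) m > N u j m`
  have key : ∀ (σ : Equiv.Perm (Fin n)) (j : Fin n) (m : ℕ),
      N σ (j.val + 1) m = N σ j.val m + if m ≤ (σ j).val then 1 else 0 := by
    intro σ j m
    unfold N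
    have h1 : ∀ x : Fin n, (if x.val < j.val + 1 ∧ m ≤ (σ x).val then 1 else 0) =
        (if x.val < j.val ∧ m ≤ (σ x).val then 1 else 0) +
          (if x = j then (if m ≤ (σ j).val then 1 else 0) else 0) := by
      intro x
      by_cases hx : x = j
      · subst hx; simp
      · have : x.val ≠ j.val := fun h => hx (Fin.ext h)
        rw [if_neg hx]
        split_ifs <;> omega
    rw [sum_congr rfl (fun x _ => h1 x), sum_add_distrib, sum_ite_eq' univ j]
    simp
  ext j
  have h1 := key u j (u j).val
  have h2 := key v j (u j).val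
  rw [h (j.val + 1), h j.val, h2, if_pos le_rfl] at h1
  have h3 : (u j).val ≤ (v j).val := by
    by_contra hc
    rw [if_neg hc] at h1; omega
  have h4 := key u j (v j).val
  have h5 := key v j (v j).val
  rw [← h (j.val + 1), ← h j.val, h4, if_pos le_rfl] at h5
  have h6 : (v j).val ≤ (u j).val := by
    by_contra hc
    rw [if_neg hc] at h5; omega
  omega

theorem N_succ (σ : Equiv.Perm (Fin n)) (j : Fin n) (m : ℕ) :
      N σ (j.val + 1) m = N σ j.val m + if m ≤ (σ j).val then 1 else 0 := by
  unfold N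
  have h1 : ∀ x : Fin n, (if x.val < j.val + 1 ∧ m ≤ (σ x).val then 1 else 0) =
      (if x.val < j.val ∧ m ≤ (σ x).val then 1 else 0) +
        (if x = j then (if m ≤ (σ j).val then 1 else 0) else 0) := by
    intro x
    by_cases hx : x = j
    · subst hx; simp
    · have : x.val ≠ j.val := fun h => hx (Fin.ext h)
      rw [if_neg hx]
      split_ifs <;> omega
  rw [sum_congr rfl (fun x _ => h1 x), sum_add_distrib, sum_ite_eq' univ j]
  simp

/-- One step of the tableau criterion. -/
theorem exists_step {u v : Equiv.Perm (Fin n)} (hN : ∀ i m, N u i m ≤ N v i m) (hne : u ≠ v) :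
    ∃ u', BruhatStep u u' ∧ ∀ i m, N u' i m ≤ N v i m := by
  classical
  have hex : ∃ a : Fin n, u a ≠ v a := by
    by_contra hc; push Not at hc; exact hne (Equiv.ext hc)
  -- first position of difference
  obtain ⟨a, ha, hamin⟩ := exists_min_image (univ.filter (fun a : Fin n => u a ≠ v a))
    (fun a => a.val) (by obtain ⟨a, ha⟩ := hex; exact ⟨a, by simp [ha]⟩)
  simp only [mem_filter, mem_univ, true_and] at ha hamin
  have hpre : ∀ j : Fin n, j.val < a.val → u j = v j := by
    intro j hj
    by_contra hc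
    exact absurd (hamin j hc) (not_le.2 hj)
  have hNpre : ∀ m, N u a.val m = N v a.val m := by
    intro m
    unfold N
    apply sum_congr rfl
    intro j _
    by_cases hj : j.val < a.val
    · rw [hpre j hj]
    · rw [if_neg (fun h => hj h.1), if_neg (fun h => hj h.1)]
  have hlt : (u a).val < (v a).val := by
    have h1 := hN (a.val + 1) (u a).val
    rw [N_succ, N_succ, hNpre, if_pos le_rfl] at h1
    have h2 : (u a).val ≤ (v a).val := by
      by_contra hc; rw [if_neg hc] at h1; omega
    have h3 : (u a).val ≠ (v a).val := fun h => ha (Fin.ext h)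
    omega
  -- the position of value `v a` in `u`
  have hex2 : ∃ b : Fin n, a < b ∧ (u a).val < (u b).val ∧ (u b).val ≤ (v a).val := by
    refine ⟨u.symm (v a), ?_, ?_, ?_⟩
    · by_contra hc
      rw [not_lt] at hc
      rcases lt_or_eq_of_le hc with h | h
      · have h1 := hpre _ h
        rw [Equiv.apply_symm_apply] at h1
        have := v.injective h1
        rw [← this] at h
        exact lt_irrefl _ h
      · rw [← h, Equiv.apply_symm_apply] at hlt
        have h1 : u a = v a := by
          conv_lhs => rw [← h]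
          rw [Equiv.apply_symm_apply]
        exact ha h1
    · rw [Equiv.apply_symm_apply]; exact hlt
    · rw [Equiv.apply_symm_apply]
  obtain ⟨b, hb, hbmin⟩ := exists_min_image
    (univ.filter (fun b : Fin n => a < b ∧ (u a).val < (u b).val ∧ (u b).val ≤ (v a).val))
    (fun b => b.val) (by
      obtain ⟨b, hb⟩ := hex2
      exact ⟨b, by simp only [mem_filter, mem_univ, true_and]; exact hb⟩)
  simp only [mem_filter, mem_univ, true_and] at hb hbmin
  have hstep : BruhatStep u (u * Equiv.swap a b) := ⟨a, b, hb.1, hb.2.1, rfl⟩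
  refine ⟨u * Equiv.swap a b, hstep, ?_⟩
  intro i m
  rw [N_swap u hb.1 hb.2.1]
  by_cases hc : a.val < i ∧ i ≤ b.val ∧ (u a).val < m ∧ m ≤ (u b).val
  · rw [if_pos hc]
    obtain ⟨h1, h2, h3, h4⟩ := hc
    have hm : m ≤ (v a).val + 1 := by omega
    rw [N_split u i hm, N_split v i hm]
    have h5 := hN i ((v a).val + 1)
    have h6 : (∑ j : Fin n, if j.val < i ∧ m ≤ (u j).val ∧ (u j).val < (v a).val + 1 then 1
        else 0) + 1 ≤ ∑ j : Fin n, if j.val < i ∧ m ≤ (v j).val ∧ (v j).val < (v a).val + 1
        then 1 else 0 := by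
      have h7 : (∑ j : Fin n, if j.val < i ∧ m ≤ (u j).val ∧ (u j).val < (v a).val + 1 then 1
        else 0) + 1 = ∑ j : Fin n, ((if j.val < i ∧ m ≤ (u j).val ∧ (u j).val < (v a).val + 1
          then 1 else 0) + if j = a then 1 else 0) := by
        rw [sum_add_distrib, sum_ite_eq' univ a]; simp
      rw [h7]
      apply sum_le_sum
      intro j _
      by_cases hja : j = a
      · subst hja
        rw [if_pos rfl, if_neg (by omega), if_pos ⟨h1, by omega, by omega⟩]
      · rw [if_neg hja, add_zero]
        have hja' : j.val ≠ a.val := fun h => hja (Fin.ext h)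
        by_cases hlt2 : j.val < a.val
        · rw [hpre j hlt2]
        · rw [if_neg]
          · exact Nat.zero_le _
          · rintro ⟨g1, g2, g3⟩
            have g4 : a < j := by rw [Fin.lt_def]; omega
            have := hbmin j ⟨g4, by omega, by omega⟩
            omega
    omega
  · rw [if_neg hc]; simpa using hN i m

theorem bruhat_iff {u v : Equiv.Perm (Fin n)} : BruhatLE u v ↔ ∀ i m, N u i m ≤ N v i m := by
  constructor
  · exact fun h i m => N_le_of_bruhat h i m
  · intro h
    -- induction on the total defect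
    suffices H : ∀ d, ∀ u : Equiv.Perm (Fin n), (∀ i m, N u i m ≤ N v i m) →
        (∑ i ∈ range (n + 1), ∑ m ∈ range (n + 1), N v i m) ≤
          (∑ i ∈ range (n + 1), ∑ m ∈ range (n + 1), N u i m) + d → BruhatLE u v from
      H _ u h (Nat.le_add_left _ _)
    intro d
    induction d with
    | zero =>
      intro u hu hd
      by_cases hne : u = v
      · subst hne; exact Relation.ReflTransGen.refl
      exfalso
      obtain ⟨u', ⟨a, b, hab, hub, rfl⟩, hu'⟩ := exists_step hu hne
      have h1 : (∑ i ∈ range (n + 1), ∑ m ∈ range (n + 1), N u i m) <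
          ∑ i ∈ range (n + 1), ∑ m ∈ range (n + 1), N (u * Equiv.swap a b) i m := by
        apply sum_lt_sum
        · intro i _; apply sum_le_sum; intro m _; rw [N_swap u hab hub]; omega
        · refine ⟨b.val, by rw [mem_range]; omega, ?_⟩
          apply sum_lt_sum
          · intro m _; rw [N_swap u hab hub]; omega
          · refine ⟨(u b).val, by rw [mem_range]; omega, ?_⟩
            rw [N_swap u hab hub, if_pos ⟨hab, le_rfl, hub, le_rfl⟩]; omega
      have h2 : ∑ i ∈ range (n + 1), ∑ m ∈ range (n + 1), N (u * Equiv.swap a b) i m ≤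
          ∑ i ∈ range (n + 1), ∑ m ∈ range (n + 1), N v i m :=
        sum_le_sum fun i _ => sum_le_sum fun m _ => hu' i m
      omega
    | succ d ih =>
      intro u hu hd
      by_cases hne : u = v
      · subst hne; exact Relation.ReflTransGen.refl
      obtain ⟨u', hstep, hu'⟩ := exists_step hu hne
      refine Relation.ReflTransGen.head hstep (ih u' hu' ?_)
      obtain ⟨a, b, hab, hub, rfl⟩ := hstep
      have h1 : (∑ i ∈ range (n + 1), ∑ m ∈ range (n + 1), N u i m) <
          ∑ i ∈ range (n + 1), ∑ m ∈ range (n + 1), N (u * Equiv.swap a b) i m := by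
        apply sum_lt_sum
        · intro i _; apply sum_le_sum; intro m _; rw [N_swap u hab hub]; omega
        · refine ⟨b.val, by rw [mem_range]; omega, ?_⟩
          apply sum_lt_sum
          · intro m _; rw [N_swap u hab hub]; omega
          · refine ⟨(u b).val, by rw [mem_range]; omega, ?_⟩
            rw [N_swap u hab hub, if_pos ⟨hab, le_rfl, hub, le_rfl⟩]; omega
      omega

/-- The `k`-th set of the flag of `σ`: the positions of the `k` largest values. -/
def lev (σ : Equiv.Perm (Fin n)) (k : ℕ) : Finset (Fin n) :=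
  univ.filter (fun a => n ≤ (σ a).val + k)

theorem mem_lev {σ : Equiv.Perm (Fin n)} {k : ℕ} {a : Fin n} :
    a ∈ lev σ k ↔ n ≤ (σ a).val + k := by simp [lev]

theorem card_lev (σ : Equiv.Perm (Fin n)) {k : ℕ} (hk : k ≤ n) : (lev σ k).card = k := by
  have h1 : (lev σ k).map σ.toEmbedding = univ.filter (fun a : Fin n => n ≤ a.val + k) := by
    ext a
    simp only [mem_map, mem_lev, Equiv.coe_toEmbedding, mem_filter, mem_univ, true_and]
    constructor
    · rintro ⟨b, hb, rfl⟩; exact hb
    · intro ha; exact ⟨σ.symm a, by simpa using ha, by simp⟩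
  rw [← card_map σ.toEmbedding, h1]
  have h2 : (univ.filter (fun a : Fin n => n ≤ a.val + k)).card =
      (Finset.range n |>.filter (fun a => n ≤ a + k)).card := by
    rw [← card_map Fin.valEmbedding]
    congr 1
    ext a
    simp only [mem_map, mem_filter, mem_univ, true_and, Fin.valEmbedding_apply, mem_range]
    constructor
    · rintro ⟨b, hb, rfl⟩; exact ⟨b.isLt, hb⟩
    · rintro ⟨h1, h2⟩; exact ⟨⟨a, h1⟩, h2, rfl⟩
  rw [h2]
  have h3 : (Finset.range n |>.filter (fun a => n ≤ a + k)) = Finset.Ico (n - k) n := by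
    ext a; simp only [mem_filter, mem_range, mem_Ico]; omega
  rw [h3, Nat.card_Ico]; omega

theorem cnt_lev (σ : Equiv.Perm (Fin n)) (k i : ℕ) : cnt (lev σ k) i = N σ i (n - k) := by
  unfold cnt lev N
  rw [sum_filter]
  apply sum_congr rfl
  intro j _
  split_ifs <;> omega

theorem lev_zero (σ : Equiv.Perm (Fin n)) : lev σ 0 = ∅ := by
  rw [← card_eq_zero, card_lev σ (Nat.zero_le _)]

theorem lev_subset (σ : Equiv.Perm (Fin n)) (k : ℕ) : lev σ k ⊆ lev σ (k + 1) := by
  intro a ha; rw [mem_lev] at *; omega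

theorem lev_chain (σ : Equiv.Perm (Fin n)) {k : ℕ} (hk : k < n) :
    ∃ b, b ∉ lev σ k ∧ lev σ (k + 1) = insert b (lev σ k) := by
  have h1 : (lev σ (k + 1) \ lev σ k).card = 1 := by
    rw [card_sdiff_of_subset (lev_subset σ k), card_lev σ (by omega), card_lev σ (by omega)]; omega
  obtain ⟨b, hb⟩ := card_eq_one.1 h1
  have hb' : b ∈ lev σ (k + 1) \ lev σ k := by rw [hb]; simp
  refine ⟨b, (mem_sdiff.1 hb').2, ?_⟩
  rw [← sdiff_union_of_subset (lev_subset σ k), hb]; rfl

theorem bruhat_iff_lev {u v : Equiv.Perm (Fin n)} :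
    BruhatLE u v ↔ ∀ k ≤ n, ∀ i, cnt (lev u k) i ≤ cnt (lev v k) i := by
  rw [bruhat_iff]
  constructor
  · intro h k _ i; rw [cnt_lev, cnt_lev]; exact h i _
  · intro h i m
    by_cases hm : m ≤ n
    · have := h (n - m) (by omega) i
      rw [cnt_lev, cnt_lev] at this
      have e : n - (n - m) = m := by omega
      rwa [e] at this
    · have : N u i m = 0 := by
        unfold N; apply sum_eq_zero; intro j _; rw [if_neg]; omega
      omega

/-- A flag of sets comes from a permutation. -/
theorem exists_perm (U : ℕ → Finset (Fin n)) (hc : ∀ k ≤ n, (U k).card = k)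
    (hs : ∀ k < n, U k ⊆ U (k + 1)) : ∃ σ : Equiv.Perm (Fin n), ∀ k ≤ n, lev σ k = U k := by
  classical
  have hmono : ∀ k l, k ≤ l → l ≤ n → U k ⊆ U l := by
    intro k l hkl
    induction l, hkl using Nat.le_induction with
    | base => intro _; exact subset_rfl
    | succ l _ ih => intro hl; exact (ih (by omega)).trans (hs l (by omega))
  have hUn : U n = univ := by
    rw [← card_eq_iff_eq_univ, hc n le_rfl, Fintype.card_fin]
  have hU0 : U 0 = ∅ := card_eq_zero.1 (hc 0 (Nat.zero_le _))
  have hex : ∀ a : Fin n, ∃ k, a ∈ U k := fun a => ⟨n, by rw [hUn]; simp⟩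
  set κ : Fin n → ℕ := fun a => Nat.find (hex a) with hκ
  have hκ1 : ∀ a, a ∈ U (κ a) := fun a => Nat.find_spec (hex a)
  have hκn : ∀ a, κ a ≤ n := fun a => Nat.find_min' _ (by rw [hUn]; simp)
  have hκ0 : ∀ a, 0 < κ a := by
    intro a
    rw [Nat.pos_iff_ne_zero]
    intro h
    have := hκ1 a
    rw [h, hU0] at this
    exact absurd this (notMem_empty _)
  have hκmin : ∀ a k, k < κ a → a ∉ U k := fun a k hk => Nat.find_min (hex a) hk
  have hinj : Function.Injective κ := by
    intro a b hab
    have h1 : κ a - 1 < n := by have := hκn a; have := hκ0 a; omega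
    have h2 : (U (κ a) \ U (κ a - 1)).card = 1 := by
      have e : κ a = κ a - 1 + 1 := by have := hκ0 a; omega
      rw [card_sdiff_of_subset (hmono _ _ (by omega) (hκn a)), hc _ (hκn a), hc _ (by omega)]
      omega
    obtain ⟨z, hz⟩ := card_eq_one.1 h2
    have ha : a ∈ U (κ a) \ U (κ a - 1) :=
      mem_sdiff.2 ⟨hκ1 a, hκmin a _ (by have := hκ0 a; omega)⟩
    have hb : b ∈ U (κ a) \ U (κ a - 1) :=
      mem_sdiff.2 ⟨hab ▸ hκ1 b, hκmin b _ (by have := hκ0 b; omega)⟩
    rw [hz, mem_singleton] at ha hb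
    rw [ha, hb]
  let f : Fin n → Fin n := fun a => ⟨n - κ a, by have := hκ0 a; have := hκn a; omega⟩
  have hf : Function.Injective f := by
    intro a b hab
    have : n - κ a = n - κ b := congrArg Fin.val hab
    apply hinj
    have := hκn a; have := hκn b; omega
  refine ⟨Equiv.ofBijective f (Finite.injective_iff_bijective.1 hf), ?_⟩
  intro k hk
  ext a
  rw [mem_lev]
  have e : ((Equiv.ofBijective f (Finite.injective_iff_bijective.1 hf)) a).val = n - κ a := rfl
  rw [e]
  constructor
  · intro h
    have h1 : κ a ≤ k := by have := hκn a; omega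
    exact hmono _ _ h1 hk (hκ1 a)
  · intro h
    have h1 : κ a ≤ k := by
      by_contra hcon
      exact hκmin a k (by omega) h
    have := hκn a
    omega

/-- Sum of the heights of the sets of the flag of `σ`. -/
def height (w : Finset (Fin n) → ℝ) (σ : Equiv.Perm (Fin n)) : ℝ :=
  ∑ k ∈ range (n + 1), w (lev σ k)

/-- Normalisation lemma: for a nonnegative `T1` function with zeros in every level. -/
theorem zeroFlags_interval {w : Finset (Fin n) → ℝ} (h : T1 w) (h0 : ∀ B, 0 ≤ w B)
    (hlev : ∀ k ≤ n, ∃ B : Finset (Fin n), B.card = k ∧ w B = 0) :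
    ∃ u v : Equiv.Perm (Fin n), (∀ k ≤ n, w (lev u k) = 0) ∧ ∀ σ : Equiv.Perm (Fin n),
      (∀ k ≤ n, w (lev σ k) = 0) ↔ BruhatLE u σ ∧ BruhatLE σ v := by
  have hempty : w ∅ = 0 := by
    obtain ⟨B, hB, hB0⟩ := hlev 0 (Nat.zero_le _)
    rw [card_eq_zero] at hB
    rw [← hB]; exact hB0
  have hex : ∀ k, ∃ U, k ≤ n → Zr w ∅ k U ∧ ∀ B, Zr w ∅ k B → ∀ i, cnt U i ≤ cnt B i := by
    intro k
    by_cases hk : k ≤ n
    · obtain ⟨U, hU⟩ := exists_latest h h0 (exists_Zr h h0 hlev hempty k (by simp) hk)
      exact ⟨U, fun _ => hU⟩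
    · exact ⟨∅, fun h1 => absurd h1 hk⟩
  choose U hU using hex
  have hex' : ∀ k, ∃ U, k ≤ n → Zr w ∅ k U ∧ ∀ B, Zr w ∅ k B → ∀ i, cnt B i ≤ cnt U i := by
    intro k
    by_cases hk : k ≤ n
    · obtain ⟨U, hU⟩ := exists_earliest h h0 (exists_Zr h h0 hlev hempty k (by simp) hk)
      exact ⟨U, fun _ => hU⟩
    · exact ⟨∅, fun h1 => absurd h1 hk⟩
  choose V hV using hex'
  obtain ⟨u, hu⟩ := exists_perm U (fun k hk => (hU k hk).1.2.1) (fun k hk =>
    latest_nested h h0 (hU k (by omega)).1 (hU k (by omega)).2 (hU (k + 1) (by omega)).1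
      (hU (k + 1) (by omega)).2)
  obtain ⟨v, hv⟩ := exists_perm V (fun k hk => (hV k hk).1.2.1) (fun k hk =>
    earliest_nested h h0 (hV k (by omega)).1 (hV k (by omega)).2 (hV (k + 1) (by omega)).1
      (hV (k + 1) (by omega)).2)
  refine ⟨u, v, fun k hk => by rw [hu k hk]; exact (hU k hk).1.2.2, fun σ => ?_⟩
  constructor
  · intro hσ
    have hZ : ∀ k ≤ n, Zr w ∅ k (lev σ k) := fun k hk => ⟨empty_subset _, card_lev σ hk, hσ k hk⟩
    constructor
    · rw [bruhat_iff_lev]
      intro k hk i
      rw [hu k hk]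
      exact (hU k hk).2 _ (hZ k hk) i
    · rw [bruhat_iff_lev]
      intro k hk i
      rw [hv k hk]
      exact (hV k hk).2 _ (hZ k hk) i
  · rintro ⟨h1, h2⟩
    rw [bruhat_iff_lev] at h1 h2
    intro k hk
    refine sandwich h h0 hlev n 0 (lev σ) (by omega) (by rw [lev_zero]; rfl)
      (fun k _ hk => lev_chain σ hk) (by rw [lev_zero]; exact hempty) ?_ ?_ k (Nat.zero_le _) hk
    · intro k _ hk
      rw [lev_zero]
      exact ⟨U k, (hU k hk).1, fun i => by rw [← hu k hk]; exact h1 k hk i⟩
    · intro k _ hk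
      rw [lev_zero]
      exact ⟨V k, (hV k hk).1, fun i => by rw [← hv k hk]; exact h2 k hk i⟩

/-- The permutations of minimal height form a Bruhat interval, and are characterised
levelwise. -/
theorem cell_interval {w : Finset (Fin n) → ℝ} (h : T1 w) :
    ∃ u v : Equiv.Perm (Fin n), ∀ σ : Equiv.Perm (Fin n),
      (∀ τ, height w σ ≤ height w τ) ↔ BruhatLE u σ ∧ BruhatLE σ v := by
  classical
  -- levelwise minima
  have hex : ∀ k, ∃ m : ℝ, k ≤ n → (∃ B : Finset (Fin n), B.card = k ∧ w B = m) ∧
      ∀ B : Finset (Fin n), B.card = k → m ≤ w B := by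
    intro k
    by_cases hk : k ≤ n
    · have hne : (univ.filter (fun B : Finset (Fin n) => B.card = k)).Nonempty := by
        obtain ⟨B, hB⟩ := exists_subset_card_eq (s := (univ : Finset (Fin n))) (n := k)
          (by simpa using hk)
        exact ⟨B, by simp [hB.2]⟩
      obtain ⟨B, hB, hmin⟩ := exists_min_image _ w hne
      simp only [mem_filter, mem_univ, true_and] at hB hmin
      exact ⟨w B, fun _ => ⟨⟨B, hB, rfl⟩, hmin⟩⟩
    · exact ⟨0, fun h => absurd h hk⟩
  choose m hm using hex
  set w' : Finset (Fin n) → ℝ := fun B => w B - m B.card with hw'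
  have hcardle : ∀ B : Finset (Fin n), B.card ≤ n := fun B => by simpa using card_le_univ B
  have h' : T1 w' := by
    intro S a b c hab hbc ha hb hc
    have h1 := h S a b c hab hbc ha hb hc
    have hac : a < c := hab.trans hbc
    have c1 : (insert a (insert c S)).card = S.card + 2 := by
      rw [card_insert_of_notMem (by simp [hac.ne, ha]), card_insert_of_notMem hc]
    have c2 : (insert b (insert c S)).card = S.card + 2 := by
      rw [card_insert_of_notMem (by simp [hbc.ne, hb]), card_insert_of_notMem hc]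
    have c3 : (insert a (insert b S)).card = S.card + 2 := by
      rw [card_insert_of_notMem (by simp [hab.ne, ha]), card_insert_of_notMem hb]
    simp only [hw', c1, c2, c3, card_insert_of_notMem ha, card_insert_of_notMem hb,
      card_insert_of_notMem hc]
    rcases le_total (w (insert a S) + w (insert b (insert c S)))
      (w (insert c S) + w (insert a (insert b S))) with g | g
    · rw [min_eq_left g] at h1
      rw [min_eq_left (by linarith)]; linarith
    · rw [min_eq_right g] at h1
      rw [min_eq_right (by linarith)]; linarith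
  have h0 : ∀ B, 0 ≤ w' B := fun B => by
    have := (hm B.card (hcardle B)).2 B rfl
    simp only [hw']; linarith
  have hlev : ∀ k ≤ n, ∃ B : Finset (Fin n), B.card = k ∧ w' B = 0 := by
    intro k hk
    obtain ⟨B, hB, hBm⟩ := (hm k hk).1
    exact ⟨B, hB, by simp only [hw', hB, hBm, sub_self]⟩
  obtain ⟨u, v, hu, huv⟩ := zeroFlags_interval h' h0 hlev
  refine ⟨u, v, fun σ => ?_⟩
  rw [← huv σ]
  have hH : ∀ τ : Equiv.Perm (Fin n), height w τ =
      (∑ k ∈ range (n + 1), m k) + ∑ k ∈ range (n + 1), w' (lev τ k) := by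
    intro τ
    unfold height
    rw [← sum_add_distrib]
    apply sum_congr rfl
    intro k hk
    rw [mem_range] at hk
    simp only [hw', card_lev τ (show k ≤ n by omega)]
    ring
  constructor
  · intro hσ k hk
    have h1 := hσ u
    rw [hH σ, hH u] at h1
    have h2 : ∑ k ∈ range (n + 1), w' (lev u k) = 0 := by
      apply sum_eq_zero; intro k hk; rw [mem_range] at hk; exact hu k (by omega)
    have h3 : ∑ k ∈ range (n + 1), w' (lev σ k) = 0 := by
      apply le_antisymm
      · linarith
      · exact sum_nonneg fun k _ => h0 _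
    rw [sum_eq_zero_iff_of_nonneg (fun k _ => h0 _)] at h3
    exact h3 k (by rw [mem_range]; omega)
  · intro hσ τ
    rw [hH σ, hH τ]
    have h3 : ∑ k ∈ range (n + 1), w' (lev σ k) = 0 := by
      apply sum_eq_zero; intro k hk; rw [mem_range] at hk; exact hσ k (by omega)
    have h4 : 0 ≤ ∑ k ∈ range (n + 1), w' (lev τ k) := sum_nonneg fun k _ => h0 _
    linarith

end Pool.Agent.H146.DA
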