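import Pool.Agent.H146.DA.Exch

/-!
# The zero flags of a tropical positive flag function form a Bruhat interval
-/

namespace Pool.Agent.H146.DA

open Finset

variable {n : ℕ}

/-- Number of elements of `B` among the first `i` positions. -/
def cnt (B : Finset (Fin n)) (i : ℕ) : ℕ := ∑ x ∈ B, if x.val < i then 1 else 0

theorem cnt_eq_card (B : Finset (Fin n)) (i : ℕ) :
    cnt B i = (B.filter (fun x => x.val < i)).card := by
  rw [card_filter]; rfl

theorem cnt_insert {B : Finset (Fin n)} {y : Fin n} (hy : y ∉ B) (i : ℕ) :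
    cnt (insert y B) i = (if y.val < i then 1 else 0) + cnt B i := by
  simp [cnt, sum_insert hy]

theorem cnt_erase {B : Finset (Fin n)} {x : Fin n} (hx : x ∈ B) (i : ℕ) :
    (if x.val < i then 1 else 0) + cnt (B.erase x) i = cnt B i := by
  simp only [cnt]; exact add_sum_erase B (fun x : Fin n => if x.val < i then 1 else 0) hx

theorem cnt_exch {B : Finset (Fin n)} {x y : Fin n} (hx : x ∈ B) (hy : y ∉ B) (i : ℕ) :
    cnt (insert y (B.erase x)) i + (if x.val < i then 1 else 0) =
      cnt B i + (if y.val < i then 1 else 0) := by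
  rw [cnt_insert (by simp [hy]), ← cnt_erase hx]; ring

theorem cnt_mono_set {A B : Finset (Fin n)} (h : A ⊆ B) (i : ℕ) : cnt A i ≤ cnt B i := by
  unfold cnt
  exact sum_le_sum_of_subset h

/-- elements in the window `[b, i)` -/
def win (B : Finset (Fin n)) (b i : ℕ) : ℕ := ∑ x ∈ B, if b ≤ x.val ∧ x.val < i then 1 else 0

theorem cnt_add_win (B : Finset (Fin n)) {b i : ℕ} (h : b ≤ i) : cnt B i = cnt B b + win B b i := by
  unfold cnt win
  rw [← sum_add_distrib]
  apply sum_congr rfl
  intro x _
  by_cases h1 : x.val < b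
  · have h2 : x.val < i := by omega
    simp [h1, h2]
  · by_cases h2 : x.val < i
    · simp [h1, h2, not_lt.1 h1]
    · simp [h1, h2]

theorem win_mono {A B : Finset (Fin n)} (h : A ⊆ B) (b i : ℕ) : win A b i ≤ win B b i := by
  unfold win
  exact sum_le_sum_of_subset h

theorem win_insert {B : Finset (Fin n)} {y : Fin n} (hy : y ∉ B) (b i : ℕ) :
    win (insert y B) b i = (if b ≤ y.val ∧ y.val < i then 1 else 0) + win B b i := by
  simp [win, sum_insert hy]

theorem win_le_of {A B : Finset (Fin n)} {b i : ℕ}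
    (h : ∀ x ∈ A, b ≤ x.val → x.val < i → x ∈ B) : win A b i ≤ win B b i := by
  unfold win
  rw [← sum_filter, ← sum_filter]
  apply sum_le_sum_of_subset
  intro x hx
  rw [mem_filter] at hx ⊢
  exact ⟨h x hx.1 hx.2.1 hx.2.2, hx.2⟩

/-- Zero sets of size `k` containing `S`. -/
def Zr (w : Finset (Fin n) → ℝ) (S : Finset (Fin n)) (k : ℕ) (B : Finset (Fin n)) : Prop :=
  S ⊆ B ∧ B.card = k ∧ w B = 0

variable {w : Finset (Fin n) → ℝ}

theorem exchZ (h : T1 w) (h0 : ∀ B, 0 ≤ w B) {S I J : Finset (Fin n)} {k l : ℕ}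
    (hI : Zr w S k I) (hJ : Zr w S l J) (hl : l = k ∨ l = k + 1) {x : Fin n} (hxI : x ∈ I)
    (hxJ : x ∉ J) :
    ∃ y ∈ J, y ∉ I ∧ Zr w S k (insert y (I.erase x)) ∧ Zr w S l (insert x (J.erase y)) := by
  have hx : x ∈ I \ J := mem_sdiff.2 ⟨hxI, hxJ⟩
  obtain ⟨m, hm⟩ : ∃ m, (I \ J).card = m + 1 := by
    have : 0 < (I \ J).card := card_pos.2 ⟨x, hx⟩
    exact ⟨(I \ J).card - 1, by omega⟩
  obtain ⟨y, hy, hle⟩ := exch m w h.l3 h.l4 I J x hm (by rw [hJ.2.1, hI.2.1]; exact hl) hx
  have hyJ := (mem_sdiff.1 hy).1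
  have hyI := (mem_sdiff.1 hy).2
  rw [hI.2.2, hJ.2.2] at hle
  have g1 := h0 (insert y (I.erase x))
  have g2 := h0 (insert x (J.erase y))
  have hcI : 0 < I.card := card_pos.2 ⟨x, hxI⟩
  have hcJ : 0 < J.card := card_pos.2 ⟨y, hyJ⟩
  refine ⟨y, hyJ, hyI, ⟨?_, ?_, by linarith⟩, ⟨?_, ?_, by linarith⟩⟩
  · intro t ht
    rw [mem_insert, mem_erase]
    exact Or.inr ⟨fun h => hxJ (h ▸ hJ.1 ht), hI.1 ht⟩
  · rw [card_insert_of_notMem (by simp [hyI]), card_erase_of_mem hxI, ← hI.2.1]; omega
  · intro t ht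
    rw [mem_insert, mem_erase]
    exact Or.inr ⟨fun h => hyI (h ▸ hI.1 ht), hJ.1 ht⟩
  · rw [card_insert_of_notMem (by simp [hxJ]), card_erase_of_mem hyJ, ← hJ.2.1]; omega

theorem upZ (h : T1 w) (h0 : ∀ B, 0 ≤ w B) {S I J : Finset (Fin n)} {k : ℕ}
    (hI : Zr w S k I) (hJ : w J = 0) (hJc : J.card = k + 1) :
    ∃ y ∈ J, y ∉ I ∧ Zr w S (k + 1) (insert y I) ∧ w (J.erase y) = 0 := by
  obtain ⟨y, hy, hle⟩ := exch_up _ w h.l3 I J rfl (by rw [hJc, hI.2.1])
  have hyJ := (mem_sdiff.1 hy).1
  have hyI := (mem_sdiff.1 hy).2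
  rw [hI.2.2, hJ] at hle
  have g1 := h0 (insert y I)
  have g2 := h0 (J.erase y)
  refine ⟨y, hyJ, hyI, ⟨hI.1.trans (subset_insert _ _), ?_, by linarith⟩, by linarith⟩
  rw [card_insert_of_notMem hyI, hI.2.1]

theorem exists_Zr (h : T1 w) (h0 : ∀ B, 0 ≤ w B) (hlev : ∀ k ≤ n, ∃ B : Finset (Fin n),
    B.card = k ∧ w B = 0) {S : Finset (Fin n)} (hS : w S = 0) :
    ∀ k, S.card ≤ k → k ≤ n → ∃ B, Zr w S k B := by
  intro k hk
  induction k, hk using Nat.le_induction with
  | base => intro _; exact ⟨S, subset_rfl, rfl, hS⟩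
  | succ k hk ih =>
    intro hkn
    obtain ⟨I, hI⟩ := ih (by omega)
    obtain ⟨J, hJc, hJ⟩ := hlev (k + 1) hkn
    obtain ⟨y, _, _, hy, _⟩ := upZ h h0 hI hJ hJc
    exact ⟨_, hy⟩

theorem exists_latest (h : T1 w) (h0 : ∀ B, 0 ≤ w B) {S : Finset (Fin n)} {k : ℕ}
    (hne : ∃ B, Zr w S k B) :
    ∃ U, Zr w S k U ∧ ∀ B, Zr w S k B → ∀ i, cnt U i ≤ cnt B i := by
  classical
  obtain ⟨B0, hB0⟩ := hne
  obtain ⟨U, hU, hmax⟩ := exists_max_image (univ.filter (fun B => Zr w S k B))
    (fun B => ∑ x ∈ B, x.val) ⟨B0, by simp [hB0]⟩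
  simp only [mem_filter, mem_univ, true_and] at hU hmax
  refine ⟨U, hU, ?_⟩
  suffices H : ∀ m, ∀ B, (B \ U).card = m → Zr w S k B → ∀ i, cnt U i ≤ cnt B i from
    fun B hB i => H _ B rfl hB i
  intro m
  induction m with
  | zero =>
    intro B hm hB i
    rw [card_eq_zero, sdiff_eq_empty_iff_subset] at hm
    rw [eq_of_subset_of_card_le hm (by rw [hU.2.1, hB.2.1])]
  | succ m ih =>
    intro B hm hB i
    have hne : (U \ B).Nonempty := by
      rw [← card_pos]
      have h1 := card_sdiff_add_card_inter B U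
      have h2 := card_sdiff_add_card_inter U B
      rw [inter_comm] at h2
      have h3 := hU.2.1
      have h4 := hB.2.1
      omega
    obtain ⟨x, hx⟩ := hne
    rw [mem_sdiff] at hx
    obtain ⟨y, hyB, hyU, h1, h2⟩ := exchZ h h0 hU hB (Or.inl rfl) hx.1 hx.2
    have hyx : y.val < x.val := by
      have g1 := hmax _ h1
      rw [sum_insert (by simp [hyU])] at g1
      have g2 := add_sum_erase U (fun x => x.val) hx.1
      have g3 : y ≠ x := fun h => hyU (h ▸ hx.1)
      have g4 : y.val ≠ x.val := fun h => g3 (Fin.ext h)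
      omega
    have hm' : (insert x (B.erase y) \ U).card = m := by
      have : insert x (B.erase y) \ U = (B \ U).erase y := by
        ext t; simp only [mem_sdiff, mem_insert, mem_erase]
        constructor
        · rintro ⟨h1 | h1, h2⟩
          · exact absurd (h1 ▸ hx.1) h2
          · exact ⟨h1.1, h1.2, h2⟩
        · rintro ⟨h1, h2, h3⟩
          exact ⟨Or.inr ⟨h1, h2⟩, h3⟩
      rw [this, card_erase_of_mem (mem_sdiff.2 ⟨hyB, hyU⟩), hm]; rfl
    have g5 := ih _ hm' h2 i
    have g6 := cnt_exch hyB hx.2 i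
    split_ifs at g6 <;> omega

theorem exists_earliest (h : T1 w) (h0 : ∀ B, 0 ≤ w B) {S : Finset (Fin n)} {k : ℕ}
    (hne : ∃ B, Zr w S k B) :
    ∃ U, Zr w S k U ∧ ∀ B, Zr w S k B → ∀ i, cnt B i ≤ cnt U i := by
  classical
  obtain ⟨B0, hB0⟩ := hne
  obtain ⟨U, hU, hmax⟩ := exists_min_image (univ.filter (fun B => Zr w S k B))
    (fun B => ∑ x ∈ B, x.val) ⟨B0, by simp [hB0]⟩
  simp only [mem_filter, mem_univ, true_and] at hU hmax
  refine ⟨U, hU, ?_⟩
  suffices H : ∀ m, ∀ B, (B \ U).card = m → Zr w S k B → ∀ i, cnt B i ≤ cnt U i from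
    fun B hB i => H _ B rfl hB i
  intro m
  induction m with
  | zero =>
    intro B hm hB i
    rw [card_eq_zero, sdiff_eq_empty_iff_subset] at hm
    rw [eq_of_subset_of_card_le hm (by rw [hU.2.1, hB.2.1])]
  | succ m ih =>
    intro B hm hB i
    have hne : (U \ B).Nonempty := by
      rw [← card_pos]
      have h1 := card_sdiff_add_card_inter B U
      have h2 := card_sdiff_add_card_inter U B
      rw [inter_comm] at h2
      have h3 := hU.2.1
      have h4 := hB.2.1
      omega
    obtain ⟨x, hx⟩ := hne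
    rw [mem_sdiff] at hx
    obtain ⟨y, hyB, hyU, h1, h2⟩ := exchZ h h0 hU hB (Or.inl rfl) hx.1 hx.2
    have hyx : x.val < y.val := by
      have g1 := hmax _ h1
      rw [sum_insert (by simp [hyU])] at g1
      have g2 := add_sum_erase U (fun x => x.val) hx.1
      have g3 : y ≠ x := fun h => hyU (h ▸ hx.1)
      have g4 : y.val ≠ x.val := fun h => g3 (Fin.ext h)
      omega
    have hm' : (insert x (B.erase y) \ U).card = m := by
      have : insert x (B.erase y) \ U = (B \ U).erase y := by
        ext t; simp only [mem_sdiff, mem_insert, mem_erase]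
        constructor
        · rintro ⟨h1 | h1, h2⟩
          · exact absurd (h1 ▸ hx.1) h2
          · exact ⟨h1.1, h1.2, h2⟩
        · rintro ⟨h1, h2, h3⟩
          exact ⟨Or.inr ⟨h1, h2⟩, h3⟩
      rw [this, card_erase_of_mem (mem_sdiff.2 ⟨hyB, hyU⟩), hm]; rfl
    have g5 := ih _ hm' h2 i
    have g6 := cnt_exch hyB hx.2 i
    split_ifs at g6 <;> omega

theorem latest_nested (h : T1 w) (h0 : ∀ B, 0 ≤ w B) {S U U' : Finset (Fin n)} {k : ℕ}
    (hU : Zr w S k U) (hUl : ∀ B, Zr w S k B → ∀ i, cnt U i ≤ cnt B i)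
    (hU' : Zr w S (k + 1) U') (hUl' : ∀ B, Zr w S (k + 1) B → ∀ i, cnt U' i ≤ cnt B i) :
    U ⊆ U' := by
  intro x hx
  by_contra hx'
  obtain ⟨y, hyJ, hyI, h1, h2⟩ := exchZ h h0 hU hU' (Or.inr rfl) hx hx'
  have hxy : y ≠ x := fun h => hyI (h ▸ hx)
  have hxy' : y.val ≠ x.val := fun h => hxy (Fin.ext h)
  have g1 := hUl _ h1 (x.val + 1)
  have g2 := cnt_exch hx hyI (x.val + 1)
  have g3 := hUl' _ h2 (y.val + 1)
  have g4 := cnt_exch hyJ hx' (y.val + 1)
  split_ifs at g2 g4 <;> omega

theorem earliest_nested (h : T1 w) (h0 : ∀ B, 0 ≤ w B) {S U U' : Finset (Fin n)} {k : ℕ}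
    (hU : Zr w S k U) (hUl : ∀ B, Zr w S k B → ∀ i, cnt B i ≤ cnt U i)
    (hU' : Zr w S (k + 1) U') (hUl' : ∀ B, Zr w S (k + 1) B → ∀ i, cnt B i ≤ cnt U' i) :
    U ⊆ U' := by
  intro x hx
  by_contra hx'
  obtain ⟨y, hyJ, hyI, h1, h2⟩ := exchZ h h0 hU hU' (Or.inr rfl) hx hx'
  have hxy : y ≠ x := fun h => hyI (h ▸ hx)
  have hxy' : y.val ≠ x.val := fun h => hxy (Fin.ext h)
  have g1 := hUl _ h1 (y.val + 1)
  have g2 := cnt_exch hx hyI (y.val + 1)
  have g3 := hUl' _ h2 (x.val + 1)
  have g4 := cnt_exch hyJ hx' (x.val + 1)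
  split_ifs at g2 g4 <;> omega

/-- Step (1): if `b` occurs at the first level of a sandwiched flag then it is a zero. -/
theorem first_step (h : T1 w) (h0 : ∀ B, 0 ≤ w B)
    (hlev : ∀ k ≤ n, ∃ B : Finset (Fin n), B.card = k ∧ w B = 0)
    {S : Finset (Fin n)} {b : Fin n} (hbS : b ∉ S) (hS : w S = 0)
    (X : ℕ → Finset (Fin n))
    (hX : ∀ k, S.card + 1 ≤ k → k ≤ n → b ∈ X k)
    (hlo : ∀ k, S.card + 1 ≤ k → k ≤ n → ∃ A, Zr w S k A ∧ ∀ i, cnt A i ≤ cnt (X k) i)
    (hhi : ∀ k, S.card + 1 ≤ k → k ≤ n → ∃ A, Zr w S k A ∧ ∀ i, cnt (X k) i ≤ cnt A i) :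
    w (insert b S) = 0 := by
  classical
  by_contra hcon
  have hcard : S.card + 1 ≤ n := by
    have : (insert b S).card ≤ n := by
      simpa using card_le_univ (insert b S)
    rwa [card_insert_of_notMem hbS] at this
  -- minimal level at which b occurs
  have hex : ∃ k, S.card + 1 ≤ k ∧ ∃ B, Zr w S k B ∧ b ∈ B := by
    refine ⟨n, hcard, univ, ?_, mem_univ b⟩
    obtain ⟨B, hB, hB0⟩ := hlev n le_rfl
    have : B = univ := by
      rw [← card_eq_iff_eq_univ, hB, Fintype.card_fin]
    subst this
    exact ⟨subset_univ _, hB, hB0⟩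
  set k := Nat.find hex with hk
  obtain ⟨hk1, B, hB, hbB⟩ := Nat.find_spec hex
  have hmin : ∀ l, l < k → S.card + 1 ≤ l → ∀ B, Zr w S l B → b ∉ B := by
    intro l hl hl1 B hB hbB
    exact Nat.find_min hex hl ⟨hl1, B, hB, hbB⟩
  rw [← hk] at hk1 hB
  have hkn : k ≤ n := by
    rw [← hB.2.1]; simpa using card_le_univ B
  -- k ≥ card S + 2
  have hk2 : S.card + 2 ≤ k := by
    by_contra hlt
    have hk3 : k = S.card + 1 := by omega
    apply hcon
    have : insert b S = B := by
      apply eq_of_subset_of_card_le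
      · intro t ht
        rcases mem_insert.1 ht with h | h
        · exact h ▸ hbB
        · exact hB.1 h
      · rw [card_insert_of_notMem hbS, hB.2.1, hk3]
    rw [this]; exact hB.2.2
  obtain ⟨l, hl⟩ : ∃ l, k = l + 1 := ⟨k - 1, by omega⟩
  obtain ⟨I0, hI0⟩ := exists_Zr h h0 hlev hS l (by omega) (by omega)
  have hbI0 : b ∉ I0 := hmin l (by omega) (by omega) I0 hI0
  obtain ⟨y, hyB, hyI, _, hBy⟩ := upZ h h0 hI0 hB.2.2 (by rw [hB.2.1, hl])
  have hZBy : Zr w S l (B.erase y) := by
    refine ⟨?_, ?_, hBy⟩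
    · intro t ht
      rw [mem_erase]; exact ⟨fun h => hyI (h ▸ hI0.1 ht), hB.1 ht⟩
    · rw [card_erase_of_mem hyB, hB.2.1, hl]; rfl
  have hyb : y = b := by
    by_contra hne
    exact hmin l (by omega) (by omega) _ hZBy (mem_erase.2 ⟨fun h => hne h.symm, hbB⟩)
  subst hyb
  set I := B.erase y with hI
  have hbI : y ∉ I := by simp [hI]
  have hIb : w (insert y I) = 0 := by rw [hI, insert_erase hyB]; exact hB.2.2
  -- all bases at level l meet [0,b) equally
  have hsep : ∀ m, ∀ J, (J \ I).card = m → Zr w S l J → cnt J y.val = cnt I y.val := by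
    intro m
    induction m with
    | zero =>
      intro J hm hJ
      rw [card_eq_zero, sdiff_eq_empty_iff_subset] at hm
      rw [eq_of_subset_of_card_le hm (by rw [hZBy.2.1, hJ.2.1])]
    | succ m ih =>
      intro J hm hJ
      have hne : (I \ J).Nonempty := by
        rw [← card_pos]
        have h1 := card_sdiff_add_card_inter J I
        have h2 := card_sdiff_add_card_inter I J
        rw [inter_comm] at h2
        have h3 := hZBy.2.1
        have h4 := hJ.2.1
        omega
      obtain ⟨x, hx⟩ := hne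
      rw [mem_sdiff] at hx
      obtain ⟨c, hcJ, hcI, h1, h2⟩ := exchZ h h0 hZBy hJ (Or.inl rfl) hx.1 hx.2
      have hm' : (insert x (J.erase c) \ I).card = m := by
        have : insert x (J.erase c) \ I = (J \ I).erase c := by
          ext t; simp only [mem_sdiff, mem_insert, mem_erase]
          constructor
          · rintro ⟨h1 | h1, h2⟩
            · exact absurd (h1 ▸ hx.1) h2
            · exact ⟨h1.1, h1.2, h2⟩
          · rintro ⟨h1, h2, h3⟩
            exact ⟨Or.inr ⟨h1, h2⟩, h3⟩
        rw [this, card_erase_of_mem (mem_sdiff.2 ⟨hcJ, hcI⟩), hm]; rfl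
      have g5 := ih _ hm' h2
      have g6 := cnt_exch hcJ hx.2 y.val
      have hyJ : y ∉ J := hmin l (by omega) (by omega) J hJ
      have hcy : c ≠ y := fun h => hyJ (h ▸ hcJ)
      have hxy : x ≠ y := fun h => hbI (h ▸ hx.1)
      have hxc : x ≠ c := fun h => hcI (h ▸ hx.1)
      -- no crossing exchange
      set T := I.erase x with hT
      have hxT : x ∉ T := by simp [hT]
      have hyT : y ∉ T := by simp [hT, hbI]
      have hcT : c ∉ T := by simp [hT, hcI]
      have hTx : insert x T = I := insert_erase hx.1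
      have hST : S ⊆ T := by
        intro t ht
        rw [hT, mem_erase]; exact ⟨fun h => hx.2 (h ▸ hJ.1 ht), hZBy.1 ht⟩
      have hTy : 0 < w (insert y T) := by
        rcases (h0 (insert y T)).lt_or_eq with g | g
        · exact g
        · exfalso
          refine hmin l (by omega) (by omega) (insert y T) ⟨hST.trans (subset_insert _ _), ?_,
            g.symm⟩ (mem_insert_self _ _)
          rw [card_insert_of_notMem hyT, hT, card_erase_of_mem hx.1, hZBy.2.1]
          omega
      have hTc : w (insert c T) = 0 := h1.2.2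
      have hyx0 : w (insert y (insert x T)) = 0 := by rw [hTx]; exact hIb
      rcases lt_or_gt_of_ne hxy with gx | gx <;> rcases lt_or_gt_of_ne hcy with gc | gc
      · have e1 : x.val < y.val := gx
        have e2 : c.val < y.val := gc
        simp only [e1, e2, if_true] at g6
        omega
      · -- x < y < c
        exfalso
        have ht := h T x y c gx gc hxT hyT hcT
        have hr := min_le_right (w (insert x T) + w (insert y (insert c T)))
          (w (insert c T) + w (insert x (insert y T)))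
        rw [← ht, Finset.insert_comm x y, hyx0, hTc] at hr
        have := h0 (insert x (insert c T))
        linarith
      · -- c < y < x
        exfalso
        have ht := h T c y x gc gx hcT hyT hxT
        have hr := min_le_left (w (insert c T) + w (insert y (insert x T)))
          (w (insert x T) + w (insert c (insert y T)))
        rw [← ht, hyx0, hTc] at hr
        have := h0 (insert c (insert x T))
        linarith
      · have e1 : ¬ x.val < y.val := by have : y.val < x.val := gx; omega
        have e2 : ¬ c.val < y.val := by have : y.val < c.val := gc; omega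
        simp only [e1, e2, if_false] at g6
        omega
  obtain ⟨A, hA, hAl⟩ := hlo l (by omega) (by omega)
  obtain ⟨A', hA', hAl'⟩ := hhi l (by omega) (by omega)
  have e1 := hsep _ A rfl hA
  have e2 := hsep _ A' rfl hA'
  have hyA' : y ∉ A' := hmin l (by omega) (by omega) A' hA'
  have e3 := hAl y.val
  have e4 := hAl' (y.val + 1)
  have e5 := cnt_add_win A' (Nat.le_succ y.val)
  have e6 : win A' y.val (y.val + 1) = 0 := by
    unfold win
    apply sum_eq_zero
    intro x hx
    have : x.val ≠ y.val := fun h => hyA' (Fin.ext h ▸ hx)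
    rw [if_neg]; omega
  have e7 := cnt_add_win (X l) (Nat.le_succ y.val)
  have e8 : 1 ≤ win (X l) y.val (y.val + 1) := by
    have : win {y} y.val (y.val + 1) ≤ win (X l) y.val (y.val + 1) :=
      win_mono (by simpa using hX l (by omega) (by omega)) _ _
    have h9 : win {y} y.val (y.val + 1) = 1 := by
      unfold win
      rw [sum_singleton, if_pos ⟨le_rfl, Nat.lt_succ_self _⟩]
    omega
  simp only [Nat.succ_eq_add_one] at e5 e7
  omega

/-- Step (2), lower half. -/
theorem near_low (h : T1 w) (h0 : ∀ B, 0 ≤ w B)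
    {S : Finset (Fin n)} {b : Fin n} (hbS : b ∉ S) (hbw : w (insert b S) = 0)
    (U : ℕ → Finset (Fin n))
    (hU : ∀ k, S.card ≤ k → k ≤ n → Zr w S k (U k) ∧ ∀ B, Zr w S k B →
      ∀ i, cnt (U k) i ≤ cnt B i) :
    ∀ k, S.card + 1 ≤ k → k ≤ n → b ∈ U k ∨ ∃ c ∈ U k, c ∉ S ∧ b < c ∧
      (∀ y ∈ U k, y ∉ S → b < y → c ≤ y) ∧ w (insert b ((U k).erase c)) = 0 := by
  intro k hk
  induction k, hk using Nat.le_induction with
  | base =>
    intro hkn
    obtain ⟨hZ, hl⟩ := hU (S.card + 1) (by omega) hkn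
    by_cases hb : b ∈ U (S.card + 1)
    · exact Or.inl hb
    right
    have h1 : (U (S.card + 1) \ S).card = 1 := by
      rw [card_sdiff_of_subset hZ.1, hZ.2.1]; omega
    obtain ⟨z, hz⟩ := card_eq_one.1 h1
    have hzU : z ∈ U (S.card + 1) \ S := by rw [hz]; simp
    rw [mem_sdiff] at hzU
    have hUz : U (S.card + 1) = insert z S := by
      rw [← sdiff_union_of_subset hZ.1, hz]; rfl
    have hbz : b < z := by
      have h2 := hl (insert b S) ⟨subset_insert _ _, by rw [card_insert_of_notMem hbS], hbw⟩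
        (z.val + 1)
      rw [hUz, cnt_insert hzU.2, cnt_insert hbS] at h2
      have h3 : b ≠ z := fun h => hb (h ▸ hzU.1)
      have h4 : b.val ≠ z.val := fun h => h3 (Fin.ext h)
      rw [Fin.lt_def]
      split_ifs at h2 <;> omega
    refine ⟨z, hzU.1, hzU.2, hbz, ?_, ?_⟩
    · intro y hy hyS _
      have : y ∈ U (S.card + 1) \ S := mem_sdiff.2 ⟨hy, hyS⟩
      rw [hz, mem_singleton] at this
      exact this ▸ le_rfl
    · rw [hUz, erase_insert hzU.2]; exact hbw
  | succ k hk ih =>
    intro hkn
    obtain ⟨hZ, hl⟩ := hU k (by omega) (by omega)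
    obtain ⟨hZ', hl'⟩ := hU (k + 1) (by omega) hkn
    have hsub : U k ⊆ U (k + 1) := latest_nested h h0 hZ hl hZ' hl'
    have h1 : (U (k + 1) \ U k).card = 1 := by
      rw [card_sdiff_of_subset hsub, hZ.2.1, hZ'.2.1]; omega
    obtain ⟨z, hz⟩ := card_eq_one.1 h1
    have hzU : z ∈ U (k + 1) \ U k := by rw [hz]; simp
    rw [mem_sdiff] at hzU
    have hUz : U (k + 1) = insert z (U k) := by
      rw [← sdiff_union_of_subset hsub, hz]; rfl
    by_cases hb : b ∈ U (k + 1)
    · exact Or.inl hb
    right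
    have hbk : b ∉ U k := fun h => hb (hsub h)
    rcases ih (by omega) with h2 | ⟨c, hcU, hcS, hbc, hnear, hwc⟩
    · exact absurd h2 hbk
    have hzb : z ≠ b := fun h => hb (h ▸ hzU.1)
    have hzc : z ≠ c := fun h => hzU.2 (h ▸ hcU)
    set T := (U k).erase c with hT
    have hcT : c ∉ T := by simp [hT]
    have hbT : b ∉ T := by simp [hT, hbk]
    have hzT : z ∉ T := by simp [hT, hzU.2]
    have hTc : insert c T = U k := insert_erase hcU
    have w1 : w (insert c T) = 0 := by rw [hTc]; exact hZ.2.2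
    have w2 : w (insert b T) = 0 := hwc
    have w3 : w (insert z (insert c T)) = 0 := by rw [hTc, ← hUz]; exact hZ'.2.2
    have hzS : z ∉ S := fun h => hzU.2 (hZ.1 h)
    rcases lt_or_gt_of_ne hzc with g | g
    · rcases lt_or_gt_of_ne hzb with g' | g'
      · -- z < b < c
        have ht := h T z b c g' hbc hzT hbT hcT
        rw [w2, w3, zero_add] at ht
        have hcase : w (insert z (insert b T)) = 0 := by
          rcases min_choice (w (insert z T) + w (insert b (insert c T)))
            (w (insert c T) + w (insert z (insert b T))) with e | e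
          · exfalso
            rw [e] at ht
            have g1 := h0 (insert z T)
            have g2 := h0 (insert b (insert c T))
            have g3 : w (insert b (insert c T)) = 0 := by linarith
            rw [hTc] at g3
            have g4 := hl' (insert b (U k)) ⟨hZ.1.trans (subset_insert _ _),
              by rw [card_insert_of_notMem hbk, hZ.2.1], g3⟩ (z.val + 1)
            rw [hUz, cnt_insert hzU.2, cnt_insert hbk] at g4
            have g5 : z.val < b.val := g'
            split_ifs at g4 <;> omega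
          · rw [e, w1, zero_add] at ht; exact ht.symm
        refine ⟨c, by rw [hUz]; exact mem_insert_of_mem hcU, hcS, hbc, ?_, ?_⟩
        · intro y hy hyS hby
          rw [hUz, mem_insert] at hy
          rcases hy with hy | hy
          · exact absurd (hy ▸ hby) (not_lt.2 g'.le)
          · exact hnear y hy hyS hby
        · rw [hUz, erase_insert_of_ne hzc, ← hT, Finset.insert_comm]; exact hcase
      · -- b < z < c
        have ht := h T b z c g' g hbT hzT hcT
        have hr := min_le_left (w (insert b T) + w (insert z (insert c T)))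
          (w (insert c T) + w (insert b (insert z T)))
        rw [← ht, w2, w3] at hr
        have g1 := h0 (insert z T)
        have g2 := h0 (insert b (insert c T))
        refine ⟨z, hzU.1, hzS, g', ?_, ?_⟩
        · intro y hy hyS hby
          rw [hUz, mem_insert] at hy
          rcases hy with hy | hy
          · exact hy ▸ le_rfl
          · exact g.le.trans (hnear y hy hyS hby)
        · rw [hUz, erase_insert hzU.2, ← hTc]; linarith
    · -- b < c < z
      have ht := h T b c z hbc g hbT hcT hzT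
      have hr := min_le_left (w (insert b T) + w (insert c (insert z T)))
          (w (insert z T) + w (insert b (insert c T)))
      rw [← ht, w2, Finset.insert_comm c z, w3, w1] at hr
      have g2 := h0 (insert b (insert z T))
      refine ⟨c, by rw [hUz]; exact mem_insert_of_mem hcU, hcS, hbc, ?_, ?_⟩
      · intro y hy hyS hby
        rw [hUz, mem_insert] at hy
        rcases hy with hy | hy
        · exact hy ▸ g.le
        · exact hnear y hy hyS hby
      · rw [hUz, erase_insert_of_ne hzc, ← hT]; linarith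

/-- Step (2), upper half. -/
theorem near_up (h : T1 w) (h0 : ∀ B, 0 ≤ w B)
    {S : Finset (Fin n)} {b : Fin n} (hbS : b ∉ S) (hbw : w (insert b S) = 0)
    (U : ℕ → Finset (Fin n))
    (hU : ∀ k, S.card ≤ k → k ≤ n → Zr w S k (U k) ∧ ∀ B, Zr w S k B →
      ∀ i, cnt B i ≤ cnt (U k) i) :
    ∀ k, S.card + 1 ≤ k → k ≤ n → b ∈ U k ∨ ∃ c ∈ U k, c ∉ S ∧ c < b ∧
      (∀ y ∈ U k, y ∉ S → y < b → y ≤ c) ∧ w (insert b ((U k).erase c)) = 0 := by
  intro k hk
  induction k, hk using Nat.le_induction with
  | base =>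
    intro hkn
    obtain ⟨hZ, hl⟩ := hU (S.card + 1) (by omega) hkn
    by_cases hb : b ∈ U (S.card + 1)
    · exact Or.inl hb
    right
    have h1 : (U (S.card + 1) \ S).card = 1 := by
      rw [card_sdiff_of_subset hZ.1, hZ.2.1]; omega
    obtain ⟨z, hz⟩ := card_eq_one.1 h1
    have hzU : z ∈ U (S.card + 1) \ S := by rw [hz]; simp
    rw [mem_sdiff] at hzU
    have hUz : U (S.card + 1) = insert z S := by
      rw [← sdiff_union_of_subset hZ.1, hz]; rfl
    have hbz : z < b := by
      have h2 := hl (insert b S) ⟨subset_insert _ _, by rw [card_insert_of_notMem hbS], hbw⟩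
        (b.val + 1)
      rw [hUz, cnt_insert hzU.2, cnt_insert hbS] at h2
      have h3 : b ≠ z := fun h => hb (h ▸ hzU.1)
      have h4 : b.val ≠ z.val := fun h => h3 (Fin.ext h)
      rw [Fin.lt_def]
      split_ifs at h2 <;> omega
    refine ⟨z, hzU.1, hzU.2, hbz, ?_, ?_⟩
    · intro y hy hyS _
      have : y ∈ U (S.card + 1) \ S := mem_sdiff.2 ⟨hy, hyS⟩
      rw [hz, mem_singleton] at this
      exact this ▸ le_rfl
    · rw [hUz, erase_insert hzU.2]; exact hbw
  | succ k hk ih =>
    intro hkn
    obtain ⟨hZ, hl⟩ := hU k (by omega) (by omega)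
    obtain ⟨hZ', hl'⟩ := hU (k + 1) (by omega) hkn
    have hsub : U k ⊆ U (k + 1) := earliest_nested h h0 hZ hl hZ' hl'
    have h1 : (U (k + 1) \ U k).card = 1 := by
      rw [card_sdiff_of_subset hsub, hZ.2.1, hZ'.2.1]; omega
    obtain ⟨z, hz⟩ := card_eq_one.1 h1
    have hzU : z ∈ U (k + 1) \ U k := by rw [hz]; simp
    rw [mem_sdiff] at hzU
    have hUz : U (k + 1) = insert z (U k) := by
      rw [← sdiff_union_of_subset hsub, hz]; rfl
    by_cases hb : b ∈ U (k + 1)
    · exact Or.inl hb
    right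
    have hbk : b ∉ U k := fun h => hb (hsub h)
    rcases ih (by omega) with h2 | ⟨c, hcU, hcS, hbc, hnear, hwc⟩
    · exact absurd h2 hbk
    have hzb : z ≠ b := fun h => hb (h ▸ hzU.1)
    have hzc : z ≠ c := fun h => hzU.2 (h ▸ hcU)
    set T := (U k).erase c with hT
    have hcT : c ∉ T := by simp [hT]
    have hbT : b ∉ T := by simp [hT, hbk]
    have hzT : z ∉ T := by simp [hT, hzU.2]
    have hTc : insert c T = U k := insert_erase hcU
    have w1 : w (insert c T) = 0 := by rw [hTc]; exact hZ.2.2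
    have w2 : w (insert b T) = 0 := hwc
    have w3 : w (insert z (insert c T)) = 0 := by rw [hTc, ← hUz]; exact hZ'.2.2
    have hzS : z ∉ S := fun h => hzU.2 (hZ.1 h)
    rcases lt_or_gt_of_ne hzc with g | g
    · -- z < c < b
      have ht := h T z c b g hbc hzT hcT hbT
      have hr := min_le_right (w (insert z T) + w (insert c (insert b T)))
          (w (insert b T) + w (insert z (insert c T)))
      rw [← ht, w2, w3, w1] at hr
      have g2 := h0 (insert z (insert b T))
      refine ⟨c, by rw [hUz]; exact mem_insert_of_mem hcU, hcS, hbc, ?_, ?_⟩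
      · intro y hy hyS hby
        rw [hUz, mem_insert] at hy
        rcases hy with hy | hy
        · exact hy ▸ g.le
        · exact hnear y hy hyS hby
      · rw [hUz, erase_insert_of_ne hzc, ← hT, Finset.insert_comm]; linarith
    · rcases lt_or_gt_of_ne hzb with g' | g'
      · -- c < z < b
        have ht := h T c z b g g' hcT hzT hbT
        have hr := min_le_right (w (insert c T) + w (insert z (insert b T)))
          (w (insert b T) + w (insert c (insert z T)))
        rw [← ht, w2, Finset.insert_comm c z, w3] at hr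
        have g1 := h0 (insert z T)
        have g2 := h0 (insert c (insert b T))
        refine ⟨z, hzU.1, hzS, g', ?_, ?_⟩
        · intro y hy hyS hby
          rw [hUz, mem_insert] at hy
          rcases hy with hy | hy
          · exact hy ▸ le_rfl
          · exact (hnear y hy hyS hby).trans g.le
        · rw [hUz, erase_insert hzU.2, ← hTc, Finset.insert_comm]; linarith
      · -- c < b < z
        have ht := h T c b z hbc g' hcT hbT hzT
        rw [w2, Finset.insert_comm c z, w3, zero_add] at ht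
        have hcase : w (insert b (insert z T)) = 0 := by
          rcases min_choice (w (insert c T) + w (insert b (insert z T)))
            (w (insert z T) + w (insert c (insert b T))) with e | e
          · rw [e, w1, zero_add] at ht; exact ht.symm
          · exfalso
            rw [e] at ht
            have g1 := h0 (insert z T)
            have g2 := h0 (insert c (insert b T))
            have g3 : w (insert c (insert b T)) = 0 := by linarith
            rw [Finset.insert_comm, hTc] at g3
            have g4 := hl' (insert b (U k)) ⟨hZ.1.trans (subset_insert _ _),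
              by rw [card_insert_of_notMem hbk, hZ.2.1], g3⟩ (b.val + 1)
            rw [hUz, cnt_insert hzU.2, cnt_insert hbk] at g4
            have g5 : b.val < z.val := g'
            split_ifs at g4 <;> omega
        refine ⟨c, by rw [hUz]; exact mem_insert_of_mem hcU, hcS, hbc, ?_, ?_⟩
        · intro y hy hyS hby
          rw [hUz, mem_insert] at hy
          rcases hy with hy | hy
          · exact absurd (hy ▸ hby) (not_lt.2 g'.le)
          · exact hnear y hy hyS hby
        · rw [hUz, erase_insert_of_ne hzc, ← hT]; exact hcase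

theorem low_half (h : T1 w) (h0 : ∀ B, 0 ≤ w B)
    (hlev : ∀ k ≤ n, ∃ B : Finset (Fin n), B.card = k ∧ w B = 0)
    {S : Finset (Fin n)} {b : Fin n} (hbS : b ∉ S) (hS : w S = 0) (hbw : w (insert b S) = 0)
    {k : ℕ} (hk : S.card + 1 ≤ k) (hkn : k ≤ n) {X : Finset (Fin n)} (hX : insert b S ⊆ X)
    {A : Finset (Fin n)} (hA : Zr w S k A) (hAX : ∀ i, cnt A i ≤ cnt X i) :
    ∃ A', Zr w (insert b S) k A' ∧ ∀ i, cnt A' i ≤ cnt X i := by
  have hex : ∀ k, ∃ U, S.card ≤ k → k ≤ n → Zr w S k U ∧ ∀ B, Zr w S k B →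
      ∀ i, cnt U i ≤ cnt B i := by
    intro k
    by_cases hk : S.card ≤ k ∧ k ≤ n
    · obtain ⟨U, hU⟩ := exists_latest h h0 (exists_Zr h h0 hlev hS k hk.1 hk.2)
      exact ⟨U, fun _ _ => hU⟩
    · exact ⟨∅, fun h1 h2 => absurd ⟨h1, h2⟩ hk⟩
  choose U hU using hex
  obtain ⟨hZ, hl⟩ := hU k (by omega) hkn
  have hUX : ∀ i, cnt (U k) i ≤ cnt X i := fun i => (hl A hA i).trans (hAX i)
  rcases near_low h h0 hbS hbw U hU k hk hkn with hb | ⟨c, hcU, hcS, hbc, hnear, hwc⟩
  · refine ⟨U k, ⟨?_, hZ.2.1, hZ.2.2⟩, hUX⟩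
    intro t ht
    rcases mem_insert.1 ht with e | e
    · exact e ▸ hb
    · exact hZ.1 e
  · by_cases hb : b ∈ U k
    · refine ⟨U k, ⟨?_, hZ.2.1, hZ.2.2⟩, hUX⟩
      intro t ht
      rcases mem_insert.1 ht with e | e
      · exact e ▸ hb
      · exact hZ.1 e
    refine ⟨insert b ((U k).erase c), ⟨?_, ?_, hwc⟩, ?_⟩
    · intro t ht
      rcases mem_insert.1 ht with e | e
      · exact e ▸ mem_insert_self _ _
      · exact mem_insert_of_mem (mem_erase.2 ⟨fun h => hcS (h ▸ e), hZ.1 e⟩)
    · rw [card_insert_of_notMem (by simp [hb]), card_erase_of_mem hcU, hZ.2.1]; omega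
    · intro i
      have g1 := cnt_exch hcU hb i
      have g2 := hUX i
      have hbc' : b.val < c.val := hbc
      by_cases hi1 : b.val < i
      · by_cases hi2 : c.val < i
        · simp only [hi1, hi2, if_true] at g1; omega
        · simp only [hi1, hi2, if_true, if_false] at g1
          have g3 := cnt_add_win (U k) hi1.le
          have g4 := cnt_add_win X hi1.le
          have g5 := hUX b.val
          have g6 : win (U k) b.val i ≤ win S b.val i := by
            apply win_le_of
            intro x hx hx1 hx2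
            by_contra hxS
            have hxb : b ≠ x := fun h => hb (h ▸ hx)
            have hxb' : b < x := lt_of_le_of_ne hx1 hxb
            have := hnear x hx hxS hxb'
            have : c.val ≤ x.val := this
            omega
          have g7 := win_mono hX b.val i
          rw [win_insert hbS, if_pos ⟨le_rfl, hi1⟩] at g7
          omega
      · have hi2 : ¬ c.val < i := by omega
        simp only [hi1, hi2, if_false] at g1; omega

theorem up_half (h : T1 w) (h0 : ∀ B, 0 ≤ w B)
    (hlev : ∀ k ≤ n, ∃ B : Finset (Fin n), B.card = k ∧ w B = 0)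
    {S : Finset (Fin n)} {b : Fin n} (hbS : b ∉ S) (hS : w S = 0) (hbw : w (insert b S) = 0)
    {k : ℕ} (hk : S.card + 1 ≤ k) (hkn : k ≤ n) {X : Finset (Fin n)} (hX : insert b S ⊆ X)
    {A : Finset (Fin n)} (hA : Zr w S k A) (hAX : ∀ i, cnt X i ≤ cnt A i) :
    ∃ A', Zr w (insert b S) k A' ∧ ∀ i, cnt X i ≤ cnt A' i := by
  have hex : ∀ k, ∃ U, S.card ≤ k → k ≤ n → Zr w S k U ∧ ∀ B, Zr w S k B →
      ∀ i, cnt B i ≤ cnt U i := by
    intro k
    by_cases hk : S.card ≤ k ∧ k ≤ n
    · obtain ⟨U, hU⟩ := exists_earliest h h0 (exists_Zr h h0 hlev hS k hk.1 hk.2)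
      exact ⟨U, fun _ _ => hU⟩
    · exact ⟨∅, fun h1 h2 => absurd ⟨h1, h2⟩ hk⟩
  choose U hU using hex
  obtain ⟨hZ, hl⟩ := hU k (by omega) hkn
  have hUX : ∀ i, cnt X i ≤ cnt (U k) i := fun i => (hAX i).trans (hl A hA i)
  by_cases hb : b ∈ U k
  · refine ⟨U k, ⟨?_, hZ.2.1, hZ.2.2⟩, hUX⟩
    intro t ht
    rcases mem_insert.1 ht with e | e
    · exact e ▸ hb
    · exact hZ.1 e
  rcases near_up h h0 hbS hbw U hU k hk hkn with hb' | ⟨c, hcU, hcS, hbc, hnear, hwc⟩
  · exact absurd hb' hb
  · refine ⟨insert b ((U k).erase c), ⟨?_, ?_, hwc⟩, ?_⟩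
    · intro t ht
      rcases mem_insert.1 ht with e | e
      · exact e ▸ mem_insert_self _ _
      · exact mem_insert_of_mem (mem_erase.2 ⟨fun h => hcS (h ▸ e), hZ.1 e⟩)
    · rw [card_insert_of_notMem (by simp [hb]), card_erase_of_mem hcU, hZ.2.1]; omega
    · intro i
      have g1 := cnt_exch hcU hb i
      have g2 := hUX i
      have hbc' : c.val < b.val := hbc
      by_cases hi1 : b.val < i
      · have hi2 : c.val < i := by omega
        simp only [hi1, hi2, if_true] at g1; omega
      · by_cases hi2 : c.val < i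
        · simp only [hi1, hi2, if_true, if_false] at g1
          have hib : i ≤ b.val + 1 := by omega
          have g3 := cnt_add_win (U k) hib
          have g4 := cnt_add_win X hib
          have g5 := hUX (b.val + 1)
          have g6 : win (U k) i (b.val + 1) ≤ win S i (b.val + 1) := by
            apply win_le_of
            intro x hx hx1 hx2
            by_contra hxS
            have hxb : x ≠ b := fun h => hb (h ▸ hx)
            have hxb2 : x.val ≠ b.val := fun h => hxb (Fin.ext h)
            have hxb' : x < b := by rw [Fin.lt_def]; omega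
            have := hnear x hx hxS hxb'
            have : x.val ≤ c.val := this
            omega
          have g7 := win_mono hX i (b.val + 1)
          rw [win_insert hbS, if_pos ⟨by omega, by omega⟩] at g7
          omega
        · simp only [hi1, hi2, if_false] at g1; omega

/-- **Sandwich theorem**: a flag lying levelwise between zero sets is a zero flag. -/
theorem sandwich (h : T1 w) (h0 : ∀ B, 0 ≤ w B)
    (hlev : ∀ k ≤ n, ∃ B : Finset (Fin n), B.card = k ∧ w B = 0) :
    ∀ (d k0 : ℕ) (X : ℕ → Finset (Fin n)), k0 + d = n → (X k0).card = k0 →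
      (∀ k, k0 ≤ k → k < n → ∃ b, b ∉ X k ∧ X (k + 1) = insert b (X k)) →
      w (X k0) = 0 →
      (∀ k, k0 ≤ k → k ≤ n → ∃ A, Zr w (X k0) k A ∧ ∀ i, cnt A i ≤ cnt (X k) i) →
      (∀ k, k0 ≤ k → k ≤ n → ∃ A, Zr w (X k0) k A ∧ ∀ i, cnt (X k) i ≤ cnt A i) →
      ∀ k, k0 ≤ k → k ≤ n → w (X k) = 0 := by
  intro d
  induction d with
  | zero =>
    intro k0 X hd _ _ hw _ _ k hk1 hk2
    have : k = k0 := by omega
    rw [this]; exact hw
  | succ d ih =>
    intro k0 X hd hc hchain hw hlo hhi k hk1 hk2
    rcases Nat.eq_or_lt_of_le hk1 with e | e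
    · rw [← e]; exact hw
    obtain ⟨b, hb, hX1⟩ := hchain k0 le_rfl (by omega)
    -- monotone chain
    have hmono : ∀ k, k0 + 1 ≤ k → k ≤ n → insert b (X k0) ⊆ X k := by
      intro k hk
      induction k, hk using Nat.le_induction with
      | base => intro _; rw [hX1]
      | succ k hk ih2 =>
        intro hkn
        obtain ⟨b', _, hb'⟩ := hchain k (by omega) (by omega)
        rw [hb']
        exact (ih2 (by omega)).trans (subset_insert _ _)
    have hbw : w (insert b (X k0)) = 0 := by
      apply first_step h h0 hlev hb hw X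
      · intro k hk1 hk2
        exact hmono k (by omega) hk2 (mem_insert_self _ _)
      · intro k hk1 hk2
        exact hlo k (by omega) hk2
      · intro k hk1 hk2
        exact hhi k (by omega) hk2
    refine ih (k0 + 1) X (by omega) ?_ ?_ ?_ ?_ ?_ k (by omega) hk2
    · rw [hX1, card_insert_of_notMem hb, hc]
    · intro k hk1 hk2; exact hchain k (by omega) hk2
    · rw [hX1]; exact hbw
    · intro k hk1 hk2
      obtain ⟨A, hA, hAX⟩ := hlo k (by omega) hk2
      rw [hX1]
      exact low_half h h0 hlev hb hw hbw (by omega) hk2 (hmono k hk1 hk2) hA hAX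
    · intro k hk1 hk2
      obtain ⟨A, hA, hAX⟩ := hhi k (by omega) hk2
      rw [hX1]
      exact up_half h h0 hlev hb hw hbw (by omega) hk2 (hmono k hk1 hk2) hA hAX

end Pool.Agent.H146.DA
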