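import Pool.Agent.H146.DA.LPM

/-!
# The violation function of a lattice path flag matroid satisfies `T1`
-/

namespace Pool.Agent.H146.DA

open Finset

variable {n : ℕ}

/-- Total violation of the inequalities of the lattice path matroid `M[U, L]`. -/
def viol (U L B : Finset (Fin n)) : ℕ :=
  ∑ i ∈ range (n + 1), ((cnt B i - cnt U i) + (cnt L i - cnt B i))

/-- indicator -/
def ind1 (j i : ℕ) : ℕ := if j < i then 1 else 0

theorem ind1_le (j i : ℕ) : ind1 j i ≤ 1 := by unfold ind1; split_ifs <;> omega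

theorem ind1_anti {j j' : ℕ} (h : j ≤ j') (i : ℕ) : ind1 j' i ≤ ind1 j i := by
  unfold ind1; split_ifs <;> omega

theorem ind1_eq_one {j i : ℕ} : ind1 j i = 1 ↔ j < i := by
  unfold ind1; split_ifs with h <;> simp [h]

theorem ind1_eq_zero {j i : ℕ} : ind1 j i = 0 ↔ i ≤ j := by
  unfold ind1
  split_ifs with h
  · simp; omega
  · simp; omega

theorem arith_alpha (g f s xa xb xc xl xu : ℕ) (h1 : xa ≤ 1) (hba : xb ≤ xa) (hcb : xc ≤ xb)
    (hxl : xl ≤ 1) (hxu : xu ≤ 1) (hfg : f ≤ g) (hfg' : xu + f ≤ xl + g) :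
    ((xb + s - g) + (f - (xb + s)) + ((xa + (xc + s) - (xl + g)) + ((xu + f) - (xa + (xc + s))))
      ≤ (xa + s - g) + (f - (xa + s)) +
        ((xb + (xc + s) - (xl + g)) + ((xu + f) - (xb + (xc + s))))) ∧
    ((xa + s - g) + (f - (xa + s)) +
        ((xb + (xc + s) - (xl + g)) + ((xu + f) - (xb + (xc + s)))) ≠
      (xb + s - g) + (f - (xb + s)) + ((xa + (xc + s) - (xl + g)) + ((xu + f) - (xa + (xc + s))))
      → xa = 1 ∧ xb = 0 ∧ ((xl = 1 ∧ s = g) ∨ (xu = 1 ∧ s = f))) := by
  have hb : xb ≤ 1 := by omega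
  have hc : xc ≤ 1 := by omega
  interval_cases xa <;> interval_cases xb <;> interval_cases xc <;> interval_cases xl <;>
    interval_cases xu <;> omega

theorem arith_beta (g f s xa xb xc xl xu : ℕ) (h1 : xa ≤ 1) (hba : xb ≤ xa) (hcb : xc ≤ xb)
    (hxl : xl ≤ 1) (hxu : xu ≤ 1) (hfg : f ≤ g) (hfg' : xu + f ≤ xl + g) :
    ((xb + s - g) + (f - (xb + s)) + ((xa + (xc + s) - (xl + g)) + ((xu + f) - (xa + (xc + s))))
      ≤ (xc + s - g) + (f - (xc + s)) +
        ((xa + (xb + s) - (xl + g)) + ((xu + f) - (xa + (xb + s))))) ∧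
    ((xc + s - g) + (f - (xc + s)) +
        ((xa + (xb + s) - (xl + g)) + ((xu + f) - (xa + (xb + s)))) ≠
      (xb + s - g) + (f - (xb + s)) + ((xa + (xc + s) - (xl + g)) + ((xu + f) - (xa + (xc + s))))
      → xb = 1 ∧ xc = 0 ∧ ((xl = 0 ∧ s + 1 = g) ∨ (xu = 0 ∧ s + 1 = f))) := by
  have hb : xb ≤ 1 := by omega
  have hc : xc ≤ 1 := by omega
  interval_cases xa <;> interval_cases xb <;> interval_cases xc <;> interval_cases xl <;>
    interval_cases xu <;> omega

theorem viol_pair {k : ℕ} {U L U' L' : Finset (Fin n)} {M M' : Matroid (Fin n)}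
    (h : IsLPM k U L M) (h' : IsLPM (k + 1) U' L' M') (hq : IsQuotient M M')
    {S : Finset (Fin n)} {a b c : Fin n} (hab : a < b) (hbc : b < c)
    (ha : a ∉ S) (hb : b ∉ S) (hc : c ∉ S) :
    viol U L (insert b S) + viol U' L' (insert a (insert c S)) =
      min (viol U L (insert a S) + viol U' L' (insert b (insert c S)))
        (viol U L (insert c S) + viol U' L' (insert a (insert b S))) := by
  have hac : a < c := hab.trans hbc
  obtain ⟨l, hl, hUl⟩ : ∃ l, l ∉ U ∧ U' = insert l U := by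
    have hsub := nested_U h h' hq
    have h1 : (U' \ U).card = 1 := by
      rw [card_sdiff_of_subset hsub, h.cardU, h'.cardU]; omega
    obtain ⟨l, hl⟩ := card_eq_one.1 h1
    have hl' : l ∈ U' \ U := by rw [hl]; simp
    refine ⟨l, (mem_sdiff.1 hl').2, ?_⟩
    rw [← sdiff_union_of_subset hsub, hl]; rfl
  obtain ⟨u, hu, hLu⟩ : ∃ u, u ∉ L ∧ L' = insert u L := by
    have hsub := nested_L h h' hq
    have h1 : (L' \ L).card = 1 := by
      rw [card_sdiff_of_subset hsub, h.cardL, h'.cardL]; omega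
    obtain ⟨l, hl⟩ := card_eq_one.1 h1
    have hl' : l ∈ L' \ L := by rw [hl]; simp
    refine ⟨l, (mem_sdiff.1 hl').2, ?_⟩
    rw [← sdiff_union_of_subset hsub, hl]; rfl
  have hab' : a.val < b.val := hab
  have hbc' : b.val < c.val := hbc
  unfold viol
  rw [← sum_add_distrib, ← sum_add_distrib, ← sum_add_distrib]
  set F0 : ℕ → ℕ := fun i => (cnt (insert b S) i - cnt U i) + (cnt L i - cnt (insert b S) i) +
    ((cnt (insert a (insert c S)) i - cnt U' i) + (cnt L' i - cnt (insert a (insert c S)) i))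
    with hF0
  set F1 : ℕ → ℕ := fun i => (cnt (insert a S) i - cnt U i) + (cnt L i - cnt (insert a S) i) +
    ((cnt (insert b (insert c S)) i - cnt U' i) + (cnt L' i - cnt (insert b (insert c S)) i))
    with hF1
  set F2 : ℕ → ℕ := fun i => (cnt (insert c S) i - cnt U i) + (cnt L i - cnt (insert c S) i) +
    ((cnt (insert a (insert b S)) i - cnt U' i) + (cnt L' i - cnt (insert a (insert b S)) i))
    with hF2
  have e1 : ∀ i, cnt (insert a S) i = ind1 a.val i + cnt S i :=
    fun i => cnt_insert ha i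
  have e2 : ∀ i, cnt (insert b S) i = ind1 b.val i + cnt S i :=
    fun i => cnt_insert hb i
  have e3 : ∀ i, cnt (insert c S) i = ind1 c.val i + cnt S i :=
    fun i => cnt_insert hc i
  have e4 : ∀ i, cnt (insert a (insert c S)) i =
      ind1 a.val i + (ind1 c.val i + cnt S i) := fun i => by
    rw [cnt_insert (by simp [hac.ne, ha]), cnt_insert hc]; rfl
  have e5 : ∀ i, cnt (insert b (insert c S)) i =
      ind1 b.val i + (ind1 c.val i + cnt S i) := fun i => by
    rw [cnt_insert (by simp [hbc.ne, hb]), cnt_insert hc]; rfl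
  have e6 : ∀ i, cnt (insert a (insert b S)) i =
      ind1 a.val i + (ind1 b.val i + cnt S i) := fun i => by
    rw [cnt_insert (by simp [hab.ne, ha]), cnt_insert hb]; rfl
  have e7 : ∀ i, cnt U' i = ind1 l.val i + cnt U i := fun i => by
    rw [hUl, cnt_insert hl]; rfl
  have e8 : ∀ i, cnt L' i = ind1 u.val i + cnt L i := fun i => by
    rw [hLu, cnt_insert hu]; rfl
  have alpha : ∀ i, F0 i ≤ F1 i ∧ (F1 i ≠ F0 i → a.val < i ∧ i ≤ b.val ∧
      ((l.val < i ∧ cnt S i = cnt U i) ∨ (u.val < i ∧ cnt S i = cnt L i))) := by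
    intro i
    have g1 := lpm_above h i
    have g2 := lpm_above h' i
    rw [e7, e8] at g2
    have key := arith_alpha (cnt U i) (cnt L i) (cnt S i) _ _ _ _ _ (ind1_le a.val i)
      (ind1_anti hab'.le i) (ind1_anti hbc'.le i) (ind1_le l.val i) (ind1_le u.val i) g1 g2
    simp only [hF0, hF1]
    rw [e1, e2, e4, e5, e7, e8]
    refine ⟨key.1, fun hne => ?_⟩
    obtain ⟨k1, k2, k3⟩ := key.2 hne
    rw [ind1_eq_one] at k1
    rw [ind1_eq_zero] at k2
    rw [ind1_eq_one, ind1_eq_one] at k3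
    exact ⟨k1, k2, k3⟩
  have beta : ∀ i, F0 i ≤ F2 i ∧ (F2 i ≠ F0 i → b.val < i ∧ i ≤ c.val ∧
      ((i ≤ l.val ∧ cnt S i + 1 = cnt U i) ∨ (i ≤ u.val ∧ cnt S i + 1 = cnt L i))) := by
    intro i
    have g1 := lpm_above h i
    have g2 := lpm_above h' i
    rw [e7, e8] at g2
    have key := arith_beta (cnt U i) (cnt L i) (cnt S i) _ _ _ _ _ (ind1_le a.val i)
      (ind1_anti hab'.le i) (ind1_anti hbc'.le i) (ind1_le l.val i) (ind1_le u.val i) g1 g2
    simp only [hF0, hF2]
    rw [e3, e2, e4, e6, e7, e8]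
    refine ⟨key.1, fun hne => ?_⟩
    obtain ⟨k1, k2, k3⟩ := key.2 hne
    rw [ind1_eq_one] at k1
    rw [ind1_eq_zero] at k2
    rw [ind1_eq_zero, ind1_eq_zero] at k3
    exact ⟨k1, k2, k3⟩
  have hdisj : (∀ i ∈ range (n + 1), F1 i = F0 i) ∨ (∀ i ∈ range (n + 1), F2 i = F0 i) := by
    by_contra hcon
    push Not at hcon
    obtain ⟨⟨i, hi, hi1⟩, ⟨i', hi', hi2⟩⟩ := hcon
    rw [mem_range] at hi hi'
    obtain ⟨a1, a2, a3⟩ := (alpha i).2 hi1
    obtain ⟨b1, b2, b3⟩ := (beta i').2 hi2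
    have hii : i ≤ i' := by omega
    have m1 := cnt_mono S hii
    have m2 := cnt_lip (insert b S) hii
    rw [e2, e2, ind1_eq_one.2 b1, ind1_eq_zero.2 a2] at m2
    rcases a3 with ⟨a4, a5⟩ | ⟨a4, a5⟩ <;> rcases b3 with ⟨b4, b5⟩ | ⟨b4, b5⟩
    · omega
    · have := cond1 h h' hq hii (by omega) (by rw [e7, ind1_eq_one.2 a4]; omega)
        (by rw [e8, ind1_eq_zero.2 b4]; omega)
      omega
    · have := cond2 h h' hq hii (by omega) (by rw [e8, ind1_eq_one.2 a4]; omega)
        (by rw [e7, ind1_eq_zero.2 b4]; omega)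
      omega
    · omega
  have s1 : (range (n + 1)).sum F0 ≤ (range (n + 1)).sum F1 :=
    sum_le_sum fun i _ => (alpha i).1
  have s2 : (range (n + 1)).sum F0 ≤ (range (n + 1)).sum F2 :=
    sum_le_sum fun i _ => (beta i).1
  change (range (n + 1)).sum F0 = min ((range (n + 1)).sum F1) ((range (n + 1)).sum F2)
  rcases hdisj with hd | hd
  · have s3 : (range (n + 1)).sum F1 = (range (n + 1)).sum F0 := sum_congr rfl hd
    omega
  · have s3 : (range (n + 1)).sum F2 = (range (n + 1)).sum F0 := sum_congr rfl hd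
    omega

/-- The levelwise violation function of a flag of lattice path matroids. -/
def W (U L : ℕ → Finset (Fin n)) (B : Finset (Fin n)) : ℝ := (viol (U B.card) (L B.card) B : ℝ)

theorem W_T1 {U L : ℕ → Finset (Fin n)} {M : ℕ → Matroid (Fin n)}
    (h : ∀ k, 1 ≤ k → k ≤ n → IsLPM k (U k) (L k) (M k))
    (hq : ∀ k, 1 ≤ k → k < n → IsQuotient (M k) (M (k + 1))) : T1 (W U L) := by
  intro S a b c hab hbc ha hb hc
  have hac : a < c := hab.trans hbc
  have c1 : (insert a (insert c S)).card = S.card + 1 + 1 := by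
    rw [card_insert_of_notMem (by simp [hac.ne, ha]), card_insert_of_notMem hc]
  have c2 : (insert b (insert c S)).card = S.card + 1 + 1 := by
    rw [card_insert_of_notMem (by simp [hbc.ne, hb]), card_insert_of_notMem hc]
  have c3 : (insert a (insert b S)).card = S.card + 1 + 1 := by
    rw [card_insert_of_notMem (by simp [hab.ne, ha]), card_insert_of_notMem hb]
  have hle : S.card + 1 + 1 ≤ n := by rw [← c1]; simpa using card_le_univ (insert a (insert c S))
  have key := viol_pair (h (S.card + 1) (by omega) (by omega)) (h (S.card + 1 + 1) (by omega) hle)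
    (hq (S.card + 1) (by omega) (by omega)) hab hbc ha hb hc
  unfold W
  rw [c1, c2, c3, card_insert_of_notMem ha, card_insert_of_notMem hb, card_insert_of_notMem hc]
  exact_mod_cast key

theorem W_nonneg (U L : ℕ → Finset (Fin n)) (B : Finset (Fin n)) : 0 ≤ W U L B :=
  Nat.cast_nonneg _

theorem W_one_le (U L : ℕ → Finset (Fin n)) (B : Finset (Fin n)) (h : W U L B ≠ 0) :
    1 ≤ W U L B := by
  unfold W at *
  have : viol (U B.card) (L B.card) B ≠ 0 := by exact_mod_cast h
  exact_mod_cast Nat.one_le_iff_ne_zero.2 this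

theorem W_eq_zero {U L : ℕ → Finset (Fin n)} {M : ℕ → Matroid (Fin n)}
    (h : ∀ k, 1 ≤ k → k ≤ n → IsLPM k (U k) (L k) (M k)) {B : Finset (Fin n)}
    (hB : 1 ≤ B.card) : W U L B = 0 ↔ (M B.card).IsBase ↑B := by
  have hle : B.card ≤ n := by simpa using card_le_univ B
  rw [(h B.card hB hle).isBase']
  unfold W viol
  rw [Nat.cast_eq_zero, sum_eq_zero_iff]
  constructor
  · intro h1
    refine ⟨rfl, fun i hi => ?_⟩
    have := h1 i (by rw [mem_range]; omega)
    omega
  · rintro ⟨_, h1⟩ i hi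
    rw [mem_range] at hi
    have := h1 i (by omega)
    omega

end Pool.Agent.H146.DA
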